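import Pool.Agent.H445.MX.Fld

/-!
# Many compatible derivations give a large rank (points of the upper half-plane and exponents)
-/

set_option autoImplicit false

open Set Module
open Pool.Agent.TH813.Rel (DF MK subset_cl rk_le_of_subset_cl cl_of_base)
open Pool.Agent.Y685 Pool.Agent.Y776 Pool.Agent.Y776.AxJ
open Pool.Agent.W245.EB Pool.Agent.TH813.Ell H667R3
open Pool.Agent.H445.MJ

noncomputable section

namespace Pool.Agent.H445.MX

variable {L : PeriodPair} {κ : ℂ} {K C : IntermediateField ℚ ℂ} {D : Derivation ℚ ℂ ℂ}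

/-- the numbers of a set of points and of a space of exponents -/
def NX' (S : Set ℂ) (T : Submodule ℚ ℂ) : Set ℂ := NS S ∪ EV T

/-- the restriction of derivations to a set of points and a space -/
def rsX (S : Finset ℂ) (T : Submodule ℚ ℂ) : Derivation ℚ ℂ ℂ →ₗ[ℂ] ((S → ℂ) × (T →ₗ[ℚ] ℂ)) where
  toFun := fun D => (rsJ S D, D.toLinearMap ∘ₗ T.subtype)
  map_add' := fun _ _ => rfl
  map_smul' := fun _ _ => rfl

theorem rsX_eq_zero {S : Finset ℂ} {T : Submodule ℚ ℂ} {D : Derivation ℚ ℂ ℂ} :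
    rsX S T D = 0 ↔ (∀ τ ∈ S, D τ = 0) ∧ ∀ x ∈ T, D x = 0 := by
  constructor
  · intro h
    exact ⟨rsJ_eq_zero.1 (congrArg Prod.fst h), fun x hx => LinearMap.congr_fun (congrArg Prod.snd h) ⟨x, hx⟩⟩
  · rintro ⟨h1, h2⟩
    refine Prod.ext (rsJ_eq_zero.2 h1) ?_
    ext x
    exact h2 x x.2

theorem finrank_rsX_le (S : Finset ℂ) (T : Submodule ℚ ℂ) [FiniteDimensional ℚ T]
    (Δ : Submodule ℂ (Derivation ℚ ℂ ℂ)) : finrank ℂ (Δ.map (rsX S T)) ≤ S.card + finrank ℚ T := by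
  refine (Submodule.finrank_le _).trans ?_
  rw [Module.finrank_prod, Module.finrank_linearMap, Module.finrank_self, mul_one,
    Module.finrank_fintype_fun_eq_card, Fintype.card_coe]

/-- the rank theorem for exponents only -/
theorem rank_exp (hE : Eig L κ) (h2 : D L.g₂ = 0) (h3 : D L.g₃ = 0) {s : ℕ} {t : Fin s → ℂ}
    (ht : ∀ k, Tf D (t k) = 0) (hti : ∀ q : Fin s → ℚ, D (∑ k, q k • t k) = 0 → q = 0) (hs : 0 < s) :
    ((s + 1 : ℕ) : ℕ∞) ≤ (MK (Cst D)).eRk (ET t) := by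
  have h4 := ax_fixed (n := 0) (z := ![]) (t := t) hE h2 h3
    (fun i => i.elim0) ht (fun c _ _ => Subsingleton.elim _ _) hti (by omega)
  have hEP : EP L (![] : Fin 0 → ℂ) = ∅ := by
    apply Set.eq_empty_of_forall_notMem
    rintro x (⟨i, -⟩ | ⟨i, -⟩ | ⟨i, -⟩) <;> exact i.elim0
  rw [hEP, union_empty] at h4
  simpa using h4

/-- **Many compatible derivations give a large rank.** -/
theorem chainX (hE : Eig L κ) (h2 : L.g₂ ∈ K) (h3 : L.g₃ ∈ K) (hb : be0 ∈ K)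
    {Δ : Submodule ℂ (Derivation ℚ ℂ ℂ)} (hΔ : Δ ≤ DF K) (m : ℕ) :
    ∀ (S : Finset ℂ) (T : Submodule ℚ ℂ) (_ : FiniteDimensional ℚ T), S.card + finrank ℚ T = m →
      (∀ τ ∈ S, 0 < τ.im ∧ τ ∉ T0) →
      (∀ τ ∈ S, ∀ σ ∈ S, τ ≠ σ → ¬ GL2Q τ σ) → (∀ D ∈ Δ, ∀ τ ∈ S, Cj D τ) →
      (∀ D ∈ Δ, ∀ x ∈ T, Tf D x = 0) →
      (∀ τ ∈ S, ∃ D ∈ Δ, D τ ≠ 0) → (∀ x ∈ T, x ≠ 0 → ∃ D ∈ Δ, D x ≠ 0) →
      ((3 * S.card + finrank ℚ T + finrank ℂ (Δ.map (rsX S T)) : ℕ) : ℕ∞) ≤ (MK K).eRk (NX' S T) := by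
  classical
  induction m using Nat.strong_induction_on with
  | _ m ih =>
  intro S T hT hm hS hGL hC hTf hDS hDT
  by_cases hne : ∃ D ∈ Δ, rsX S T D ≠ 0
  swap
  · push Not at hne
    have hS0 : S = ∅ := by
      rw [Finset.eq_empty_iff_forall_notMem]
      intro τ hτ
      obtain ⟨D, hD1, hD2⟩ := hDS τ hτ
      exact hD2 ((rsX_eq_zero.1 (hne D hD1)).1 τ hτ)
    have hT0 : T = ⊥ := by
      rw [Submodule.eq_bot_iff]
      intro x hx
      by_contra hx0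
      obtain ⟨D, hD1, hD2⟩ := hDT x hx hx0
      exact hD2 ((rsX_eq_zero.1 (hne D hD1)).2 x hx)
    have h1 : Δ.map (rsX S T) = ⊥ := by
      rw [Submodule.eq_bot_iff]
      rintro _ ⟨D, hD1, rfl⟩
      exact hne D hD1
    rw [h1, finrank_bot]
    subst hT0
    rw [finrank_bot, hS0]
    simp
  -- a derivation with the largest kernel
  let kS : Derivation ℚ ℂ ℂ → Finset ℂ := fun D => S.filter fun τ => D τ = 0
  let kr : Derivation ℚ ℂ ℂ → ℕ := fun D => (kS D).card +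
      finrank ℚ (T ⊓ LinearMap.ker D.toLinearMap : Submodule ℚ ℂ)
  let Q : Set ℕ := {k | ∃ D ∈ Δ, rsX S T D ≠ 0 ∧ kr D = k}
  have hQ1 : Q.Nonempty := by
    obtain ⟨D, h4, h5⟩ := hne
    exact ⟨_, D, h4, h5, rfl⟩
  have hQ2 : BddAbove Q := by
    refine ⟨m, ?_⟩
    rintro _ ⟨D, -, -, rfl⟩
    rw [← hm]
    exact add_le_add (Finset.card_le_card (Finset.filter_subset _ _)) (Submodule.finrank_mono inf_le_left)
  obtain ⟨D, hDΔ, hDne, hDk⟩ := Nat.sSup_mem hQ1 hQ2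
  have hmax : ∀ D' ∈ Δ, rsX S T D' ≠ 0 → kr D' ≤ kr D := by
    intro D' h4 h5
    rw [hDk]
    exact le_csSup hQ2 ⟨D', h4, h5, rfl⟩
  set S₁ : Finset ℂ := S.filter fun τ => D τ = 0 with hS₁
  set S₂ : Finset ℂ := S.filter fun τ => ¬ D τ = 0 with hS₂
  set T₁ : Submodule ℚ ℂ := T ⊓ LinearMap.ker D.toLinearMap with hT₁
  have hS₁S : S₁ ⊆ S := Finset.filter_subset _ _
  have hS₂S : S₂ ⊆ S := Finset.filter_subset _ _
  have hcard : S₁.card + S₂.card = S.card := Finset.card_filter_add_card_filter_not _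
  have hT₁T : T₁ ≤ T := inf_le_left
  have hT₁D : ∀ x ∈ T₁, D x = 0 := fun x hx => hx.2
  have hS₁D : ∀ x ∈ S₁, D x = 0 := fun x hx => (Finset.mem_filter.1 hx).2
  have hT₁f : FiniteDimensional ℚ T₁ := Submodule.finiteDimensional_of_le hT₁T
  have hkr1 : ∀ D' : Derivation ℚ ℂ ℂ, (∀ x ∈ S₁, D' x = 0) → S₁ ⊆ kS D' :=
    fun D' h x hx => Finset.mem_filter.2 ⟨hS₁S hx, h x hx⟩
  have hkr2 : ∀ D' : Derivation ℚ ℂ ℂ, (∀ x ∈ T₁, D' x = 0) →
      T₁ ≤ T ⊓ LinearMap.ker D'.toLinearMap := fun D' h x hx => ⟨hT₁T hx, h x hx⟩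
  have hTf' : ∀ D' : Derivation ℚ ℂ ℂ, FiniteDimensional ℚ
      (T ⊓ LinearMap.ker D'.toLinearMap : Submodule ℚ ℂ) :=
    fun D' => Submodule.finiteDimensional_of_le inf_le_left
  -- an element which is moved
  obtain ⟨x₀, hx₀, hx₀D, hx₀c⟩ : ∃ x₀ : ℂ, (x₀ ∈ S ∨ x₀ ∈ T) ∧ D x₀ ≠ 0 ∧
      ∀ D' : Derivation ℚ ℂ ℂ, (∀ x ∈ S₁, D' x = 0) → (∀ x ∈ T₁, D' x = 0) → D' x₀ = 0 →
        kr D < kr D' := by
    by_cases hS' : ∃ x ∈ S, D x ≠ 0
    · obtain ⟨x, hx, hxD⟩ := hS'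
      refine ⟨x, Or.inl hx, hxD, fun D' h4 h5 h6 => ?_⟩
      refine add_lt_add_of_lt_of_le ?_ ?_
      · apply Finset.card_lt_card
        rw [Finset.ssubset_iff_of_subset (hkr1 D' h4)]
        exact ⟨x, Finset.mem_filter.2 ⟨hx, h6⟩, fun h => hxD (Finset.mem_filter.1 h).2⟩
      · have := hTf' D'
        exact Submodule.finrank_mono (hkr2 D' h5)
    · by_cases hT' : ∃ x ∈ T, D x ≠ 0
      · obtain ⟨x, hx, hxD⟩ := hT'
        refine ⟨x, Or.inr hx, hxD, fun D' h4 h5 h6 => ?_⟩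
        refine add_lt_add_of_le_of_lt ?_ ?_
        · exact Finset.card_le_card (hkr1 D' h4)
        · have := hTf' D'
          apply Submodule.finrank_lt_finrank_of_lt
          refine lt_of_le_of_ne (hkr2 D' h5) fun h => hxD ?_
          have h7 : x ∈ T ⊓ LinearMap.ker D'.toLinearMap := ⟨hx, h6⟩
          rw [← h] at h7
          exact hT₁D x h7
      · push Not at hS' hT'
        exact absurd (rsX_eq_zero.2 ⟨hS', hT'⟩) hDne
  have hm₁ : S₁.card + finrank ℚ T₁ < m := by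
    rw [← hm]
    rcases hx₀ with hx | hx
    · refine add_lt_add_of_lt_of_le ?_ (Submodule.finrank_mono hT₁T)
      apply Finset.card_lt_card
      rw [Finset.ssubset_iff_of_subset hS₁S]
      exact ⟨x₀, hx, fun h => hx₀D (hS₁D _ h)⟩
    · refine add_lt_add_of_le_of_lt (Finset.card_le_card hS₁S) (Submodule.finrank_lt_finrank_of_lt ?_)
      exact lt_of_le_of_ne hT₁T fun h => hx₀D (hT₁D _ (h ▸ hx))
  -- the induction hypothesis
  have hI := ih _ hm₁ S₁ T₁ hT₁f rfl (fun τ hτ => hS τ (hS₁S hτ))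
    (fun τ hτ σ hσ => hGL τ (hS₁S hτ) σ (hS₁S hσ)) (fun D hD τ hτ => hC D hD τ (hS₁S hτ))
    (fun D hD x hx => hTf D hD x (hT₁T hx))
    (fun τ hτ => hDS τ (hS₁S hτ)) (fun x hx => hDT x (hT₁T hx))
  -- the dimension of the restrictions
  have hdim : finrank ℂ (Δ.map (rsX S T)) ≤ finrank ℂ (Δ.map (rsX S₁ T₁)) + 1 := by
    let r : ((S → ℂ) × (T →ₗ[ℚ] ℂ)) →ₗ[ℂ] ((S₁ → ℂ) × (T₁ →ₗ[ℚ] ℂ)) :=
      { toFun := fun f => (fun τ => f.1 ⟨τ, hS₁S τ.2⟩, f.2 ∘ₗ Submodule.inclusion hT₁T)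
        map_add' := fun _ _ => rfl
        map_smul' := fun _ _ => rfl }
    let R := r.domRestrict (Δ.map (rsX S T))
    have h4 := LinearMap.finrank_range_add_finrank_ker R
    have h5 : LinearMap.range R = Δ.map (rsX S₁ T₁) := by
      ext f
      constructor
      · rintro ⟨⟨_, D', hD', rfl⟩, rfl⟩
        exact ⟨D', hD', rfl⟩
      · rintro ⟨D', hD', rfl⟩
        exact ⟨⟨_, D', hD', rfl⟩, rfl⟩
    have h6 : finrank ℂ (LinearMap.ker R) ≤ 1 := by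
      obtain ⟨e₀, he₀⟩ : ∃ e₀ : ((S → ℂ) × (T →ₗ[ℚ] ℂ)) →ₗ[ℂ] ℂ,
          ∀ D' : Derivation ℚ ℂ ℂ, e₀ (rsX S T D') = D' x₀ := by
        rcases hx₀ with hx | hx
        · exact ⟨{ toFun := fun f => f.1 ⟨x₀, hx⟩
                   map_add' := fun _ _ => rfl
                   map_smul' := fun _ _ => rfl }, fun D' => rfl⟩
        · exact ⟨{ toFun := fun f => f.2 ⟨x₀, hx⟩
                   map_add' := fun _ _ => rfl
                   map_smul' := fun _ _ => rfl }, fun D' => rfl⟩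
      let ev : LinearMap.ker R →ₗ[ℂ] ℂ :=
        (e₀ ∘ₗ (Δ.map (rsX S T)).subtype) ∘ₗ (LinearMap.ker R).subtype
      have hinj : Function.Injective ev := by
        rw [injective_iff_map_eq_zero]
        rintro ⟨⟨_, D', hD', rfl⟩, hker⟩ h0
        have h7 : D' x₀ = 0 := by
          rw [← he₀ D']
          exact h0
        have h8 : rsX S₁ T₁ D' = 0 := hker
        obtain ⟨h8, h9⟩ := rsX_eq_zero.1 h8
        by_contra hne'
        have h10 : rsX S T D' ≠ 0 := by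
          intro h
          apply hne'
          apply Subtype.ext
          apply Subtype.ext
          exact h
        exact absurd (hx₀c D' h8 h9 h7) (not_lt.2 (hmax D' hD' h10))
      have := LinearMap.finrank_le_finrank_of_injective hinj
      rwa [finrank_self] at this
    rw [h5] at h4
    have h7 : finrank ℂ (Δ.map (rsX S T)) = finrank ℂ (Δ.map (rsX S₁ T₁)) +
        finrank ℂ (LinearMap.ker R) := h4.symm
    omega
  -- complements
  obtain ⟨T₂, hT₂T, hdjT, hcardT, -⟩ := exists_rel_complk hT₁T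
  have hT₂f : FiniteDimensional ℚ T₂ := Submodule.finiteDimensional_of_le hT₂T
  obtain ⟨t₁, ht₁, hs₁⟩ := exists_tuple T₁
  obtain ⟨t₂, ht₂, hs₂⟩ := exists_tuple T₂
  have ht₁V : ∀ i, t₁ i ∈ T₁ := fun i => hs₁ ▸ Submodule.subset_span ⟨i, rfl⟩
  have ht₂V : ∀ i, t₂ i ∈ T₂ := fun i => hs₂ ▸ Submodule.subset_span ⟨i, rfl⟩
  have hpos : 0 < S₂.card + finrank ℚ T₂ := by omega
  -- the moved points
  let e := S₂.equivFin
  let p : Fin S₂.card → ℂ := fun i => (e.symm i : ℂ)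
  have hpS : ∀ i, p i ∈ S₂ := fun i => (e.symm i).2
  have hpi : ∀ i k, i ≠ k → p i ≠ p k := fun i k hik h => hik (e.symm.injective (Subtype.ext h))
  have htT : ∀ k, Tf D (t₂ k) = 0 := fun l => hTf D hDΔ _ (hT₂T (ht₂V l))
  have hti : ∀ q : Fin (finrank ℚ T₂) → ℚ, D (∑ k, q k • t₂ k) = 0 → q = 0 := fun q hq => by
      have h5 : ∑ l, q l • t₂ l ∈ T₂ := sum_mem fun l _ => Submodule.smul_mem _ _ (ht₂V l)
      have h6 := hdjT _ h5 ⟨hT₂T h5, hq⟩
      exact funext fun i => Fintype.linearIndependent_iff.1 ht₂ q h6 i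
  have h4' : ((3 * S₂.card + finrank ℚ T₂ + 1 : ℕ) : ℕ∞) ≤ (MK (Cst D)).eRk (NS S₂ ∪ ET t₂) := by
    rcases Nat.eq_zero_or_pos S₂.card with h0 | h0
    · have h5 := rank_exp (D := D) (t := t₂) hE (hΔ hDΔ _ h2) (hΔ hDΔ _ h3) htT hti (by omega)
      rw [h0, mul_zero, zero_add]
      exact h5.trans ((MK _).eRk_mono subset_union_right)
    · have h4 := rank_tau (D := D) (τ := p) (t := t₂) (fun i => (hS _ (hS₂S (hpS i))).1)
        (fun i => (hS _ (hS₂S (hpS i))).2) (fun i k hik => hGL _ (hS₂S (hpS i)) _ (hS₂S (hpS k)) (hpi i k hik))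
        (hΔ hDΔ _ hb) (fun i => hC D hDΔ _ (hS₂S (hpS i))) (fun i => (Finset.mem_filter.1 (hpS i)).2) h0
        htT hti
      have h5 : NX (fun i => QL (p i)) ∪ ET t₂ ⊆ NS S₂ ∪ ET t₂ := by
        apply union_subset_union_left
        rintro x hx
        obtain ⟨i, hi⟩ := Set.mem_iUnion.1 hx
        exact Set.mem_biUnion (hpS i) hi
      exact h4.trans ((MK _).eRk_mono h5)
  have h5 : clo K (NS S₁ ∪ ET t₁) ≤ Cst D := by
    intro x hx
    refine hx D (hΔ hDΔ) ?_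
    rintro y (hy | ⟨i, rfl⟩ | ⟨i, rfl⟩)
    · obtain ⟨τ, hτ, hy⟩ := Set.mem_iUnion₂.1 hy
      exact (hC D hDΔ τ (hS₁S hτ)).kill_N1 (Finset.mem_filter.1 hτ).2 hy
    · exact hT₁D _ (ht₁V i)
    · have h6 := hTf D hDΔ _ (hT₁T (ht₁V i))
      change D (Complex.exp (t₁ i)) = 0
      rw [Pool.Agent.Y776.D_exp h6, hT₁D _ (ht₁V i), mul_zero]
  have hf1 : (NS (S₁ : Set ℂ) ∪ ET t₁).Finite := (NS_finite S₁.finite_toSet).union (ET_finite t₁)
  have hf2 : (NS (S₂ : Set ℂ) ∪ ET t₂).Finite := (NS_finite S₂.finite_toSet).union (ET_finite t₂)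
  have h6 := rank_mono_base h5 hf2
  have h7 := rank_add (C := K) hf1 hf2
  have h8 : (MK K).eRk ((NS S₁ ∪ ET t₁) ∪ (NS S₂ ∪ ET t₂)) ≤ (MK K).eRk (NX' S T) := by
    apply (MK K).eRk_mono
    exact union_subset (union_subset_union (NS_mono hS₁S) (ET_subset_EV fun i => hT₁T (ht₁V i)))
      (union_subset_union (NS_mono hS₂S) (ET_subset_EV fun i => hT₂T (ht₂V i)))
  have h9 : (MK K).eRk (NX' S₁ T₁) ≤ (MK K).eRk (NS S₁ ∪ ET t₁) := by
    apply rk_le_of_subset_cl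
    rintro x (hx | hx)
    · exact subset_cl _ (Or.inl hx)
    · rw [← hs₁] at hx
      exact (MK K).closure_subset_closure subset_union_right (EV_subset_cl K t₁ hx)
  calc ((3 * S.card + finrank ℚ T + finrank ℂ (Δ.map (rsX S T)) : ℕ) : ℕ∞)
      ≤ ((3 * S₁.card + finrank ℚ T₁ + finrank ℂ (Δ.map (rsX S₁ T₁)) : ℕ) : ℕ∞) +
        ((3 * S₂.card + finrank ℚ T₂ + 1 : ℕ) : ℕ∞) := by
        rw [← Nat.cast_add]
        exact_mod_cast (by omega : 3 * S.card + finrank ℚ T + finrank ℂ (Δ.map (rsX S T)) ≤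
          (3 * S₁.card + finrank ℚ T₁ + finrank ℂ (Δ.map (rsX S₁ T₁))) + (3 * S₂.card + finrank ℚ T₂ + 1))
    _ ≤ (MK K).eRk (NS S₁ ∪ ET t₁) + (MK (clo K (NS S₁ ∪ ET t₁))).eRk (NS S₂ ∪ ET t₂) :=
        add_le_add (hI.trans h9) (h4'.trans h6)
    _ = (MK K).eRk ((NS S₁ ∪ ET t₁) ∪ (NS S₂ ∪ ET t₂)) := h7.symm
    _ ≤ (MK K).eRk (NX' S T) := h8

end Pool.Agent.H445.MX
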