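import Pool.Agent.H445.MX.Red

/-!
# The exact dimension of the set of the failures (points of the upper half-plane and exponents)
-/

set_option autoImplicit false

open Set Module MvPolynomial
open Pool.Agent.TH813.Rel (DF MK subset_cl rk_le_of_subset_cl cl_of_base exists_derF)
open Pool.Agent.Y685
open Pool.Agent.Y776 (T0 T0_spec be0 jf Tf Tf_lin ET ET_finite)
open Pool.Agent.Y776.AxJ
open Pool.Agent.W245.EB Pool.Agent.TH813.Ell H667R3
open Pool.Agent.H445.MJ
open scoped NNReal ENNReal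

noncomputable section

namespace Pool.Agent.H445.MX

variable {n s N : ℕ} {K : Subfield ℂ} {P : Set ℂ} {B : Submodule ℚ ℂ} {c m : ℕ}

theorem FailX.mono {m m' : ℕ} (hm : m ≤ m') {z : Fin n → ℂ} {t : Fin s → ℂ} (h : FailX P B c n s m' z t) :
    FailX P B c n s m z t :=
  ⟨h.im, h.ncm, h.ineq, h.indE, le_trans (by gcongr) h.rk⟩

/-- the quasi-period -/
abbrev HH (τ : ℂ) : ℂ := h1 τ

/-- adding an algebraic point -/
theorem FailX.succP {z : Fin n → ℂ} {t : Fin s → ℂ} (h : FailX P B c n s m z t) :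
    ∃ z' : Fin (n + 1) → ℂ, FailX P B c (n + 1) s m z' t := by
  obtain ⟨τ, hal, h2, h3, h4⟩ := exists_alg_tau (finite_range z)
  refine ⟨Fin.snoc z τ, ?_, ?_, ?_, h.indE, ?_⟩
  · intro i
    refine Fin.lastCases ?_ (fun i => ?_) i
    · rw [Fin.snoc_last]; exact h2
    · rw [Fin.snoc_castSucc]; exact h.im i
  · intro i
    refine Fin.lastCases ?_ (fun i => ?_) i
    · rw [Fin.snoc_last]; exact h3
    · rw [Fin.snoc_castSucc]; exact h.ncm i
  · intro i k
    refine Fin.lastCases ?_ (fun i => ?_) i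
    · refine Fin.lastCases ?_ (fun k => ?_) k
      · intro hik; exact absurd rfl hik
      · intro _
        rw [Fin.snoc_last, Fin.snoc_castSucc]
        exact (h4 _ ⟨k, rfl⟩).2
    · refine Fin.lastCases ?_ (fun k => ?_) k
      · intro _
        rw [Fin.snoc_last, Fin.snoc_castSucc]
        exact (h4 _ ⟨i, rfl⟩).1
      · intro hik
        rw [Fin.snoc_castSucc, Fin.snoc_castSucc]
        exact h.ineq i k fun hik' => hik (by rw [hik'])
  · have e1 : NS ({τ} : Set ℂ) = N1 τ := by simp [MJ.NS]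
    have h5 : P ∪ (NS (range (Fin.snoc z τ : Fin (n + 1) → ℂ)) ∪ ET t) ⊆
        (MK (⊥ : IntermediateField ℚ ℂ)).closure ((P ∪ (NS (range z) ∪ ET t)) ∪ {HH τ, (LC τ).g₂, (LC τ).g₃}) := by
      rw [range_snoc, NS_union, e1]
      rintro y (hy | (hy | hy) | hy)
      · exact subset_cl _ (Or.inl (Or.inl hy))
      · exact subset_cl _ (Or.inl (Or.inr (Or.inl hy)))
      · rcases hy with rfl | hy
        · exact alg_mem_cl hal _
        · exact subset_cl _ (Or.inr hy)
      · exact subset_cl _ (Or.inl (Or.inr (Or.inr hy)))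
    have h6 := (rk_le_of_subset_cl h5).trans ((MK (⊥ : IntermediateField ℚ ℂ)).eRk_union_le_eRk_add_encard _ _)
    have h7 : ({HH τ, (LC τ).g₂, (LC τ).g₃} : Set ℂ).encard ≤ (3 : ℕ) := by
      refine (Set.encard_insert_le _ _).trans ?_
      refine (add_le_add_left (Set.encard_insert_le _ _) _).trans ?_
      rw [Set.encard_singleton]
      norm_num
    calc (MK (⊥ : IntermediateField ℚ ℂ)).eRk (P ∪ (NS (range (Fin.snoc z τ : Fin (n + 1) → ℂ)) ∪ ET t)) + m
        ≤ ((MK (⊥ : IntermediateField ℚ ℂ)).eRk (P ∪ (NS (range z) ∪ ET t)) + (3 : ℕ)) + m := by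
          gcongr
          exact h6.trans (add_le_add le_rfl h7)
      _ = ((MK (⊥ : IntermediateField ℚ ℂ)).eRk (P ∪ (NS (range z) ∪ ET t)) + m) + (3 : ℕ) := by ring
      _ ≤ ((3 * n + s + c : ℕ) : ℕ∞) + (3 : ℕ) := by gcongr; exact h.rk
      _ = ((3 * (n + 1) + s + c : ℕ) : ℕ∞) := by push_cast; ring

/-- adding an algebraic exponent -/
theorem FailX.succE [FiniteDimensional ℚ B] {z : Fin n → ℂ} {t : Fin s → ℂ}
    (h : FailX P B c n s m z t) : ∃ t' : Fin (s + 1) → ℂ, FailX P B c n (s + 1) m z t' := by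
  have hf : FiniteDimensional ℚ (Submodule.span ℚ (range t)) :=
    FiniteDimensional.span_of_finite ℚ (finite_range t)
  obtain ⟨r₀, hr1, hr2⟩ := exists_real_alg (Submodule.span ℚ (range t) ⊔ B)
  set r : ℂ := (r₀ : ℂ) with hr
  refine ⟨Fin.snoc t r, h.im, h.ncm, h.ineq, ?_, ?_⟩
  · intro a h0
    rw [Fin.sum_univ_castSucc] at h0
    simp only [Fin.snoc_castSucc, Fin.snoc_last] at h0
    have h1 : ∑ i : Fin s, a i.castSucc • t i ∈ Submodule.span ℚ (range t) :=
      sum_mem fun i _ => Submodule.smul_mem _ _ (Submodule.subset_span ⟨i, rfl⟩)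
    have h2 : a (Fin.last s) • r ∈ Submodule.span ℚ (range t) ⊔ B := by
      have h3 := sub_mem (Submodule.mem_sup_right (S := Submodule.span ℚ (range t)) h0)
        (Submodule.mem_sup_left (T := B) h1)
      rwa [add_sub_cancel_left] at h3
    have h3 : a (Fin.last s) = 0 := mem_span_snoc hr2 h2
    rw [h3, zero_smul, add_zero] at h0
    have h4 := h.indE (fun i => a i.castSucc) h0
    funext i
    refine Fin.lastCases ?_ (fun i => ?_) i
    · exact h3
    · exact congrFun h4 i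
  · have h1 : P ∪ (NS (range z) ∪ ET (Fin.snoc t r : Fin (s + 1) → ℂ)) ⊆
        (MK (⊥ : IntermediateField ℚ ℂ)).closure
          (insert (Complex.exp r) (P ∪ (NS (range z) ∪ ET t))) := by
      rintro y (hy | hy | ⟨i, rfl⟩ | ⟨i, rfl⟩)
      · exact subset_cl _ (mem_insert_of_mem _ (Or.inl hy))
      · exact subset_cl _ (mem_insert_of_mem _ (Or.inr (Or.inl hy)))
      · refine Fin.lastCases ?_ (fun i => ?_) i
        · rw [Fin.snoc_last]
          exact alg_mem_cl hr1 _
        · rw [Fin.snoc_castSucc]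
          exact subset_cl _ (mem_insert_of_mem _ (Or.inr (Or.inr (Or.inl ⟨i, rfl⟩))))
      · refine Fin.lastCases ?_ (fun i => ?_) i
        · beta_reduce
          rw [Fin.snoc_last]
          exact subset_cl _ (mem_insert _ _)
        · beta_reduce
          rw [Fin.snoc_castSucc]
          exact subset_cl _ (mem_insert_of_mem _ (Or.inr (Or.inr (Or.inr ⟨i, rfl⟩))))
    calc (MK (⊥ : IntermediateField ℚ ℂ)).eRk
          (P ∪ (NS (range z) ∪ ET (Fin.snoc t r : Fin (s + 1) → ℂ))) + m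
        ≤ ((MK (⊥ : IntermediateField ℚ ℂ)).eRk (P ∪ (NS (range z) ∪ ET t)) + 1) + m := by
          gcongr
          exact (rk_le_of_subset_cl h1).trans ((MK _).eRk_insert_le_add_one _ _)
      _ = ((MK (⊥ : IntermediateField ℚ ℂ)).eRk (P ∪ (NS (range z) ∪ ET t)) + m) + 1 := by ring
      _ ≤ ((3 * n + s + c : ℕ) : ℕ∞) + 1 := by gcongr; exact h.rk
      _ = ((3 * n + (s + 1) + c : ℕ) : ℕ∞) := by push_cast; ring

theorem FailX.extend [FiniteDimensional ℚ B] {n₀ s₀ : ℕ} (hn : n₀ ≤ n) (hs : s₀ ≤ s)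
    (h : ∃ (z : Fin n₀ → ℂ) (t : Fin s₀ → ℂ), FailX P B c n₀ s₀ m z t) :
    ∃ (z : Fin n → ℂ) (t : Fin s → ℂ), FailX P B c n s m z t := by
  have h1 : ∃ (z : Fin n → ℂ) (t : Fin s₀ → ℂ), FailX P B c n s₀ m z t := by
    induction n, hn using Nat.le_induction with
    | base => exact h
    | succ n _ ih =>
      obtain ⟨z, t, hz⟩ := ih
      obtain ⟨z', hz'⟩ := hz.succP
      exact ⟨z', t, hz'⟩
  induction s, hs using Nat.le_induction with
  | base => exact h1
  | succ s _ ih =>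
    obtain ⟨z, t, hz⟩ := ih
    obtain ⟨t', ht'⟩ := hz.succE
    exact ⟨z, t', ht'⟩

theorem encard_NS {d : ℕ} (x : Fin d → ℂ) : (NS (range x)).encard ≤ (4 * d : ℕ) := by
  classical
  have h1 : NS (range x) = ⋃ i ∈ (Finset.univ : Finset (Fin d)), N1 (x i) := by
    rw [MJ.NS, biUnion_range]
    simp
  have h3 : ∀ τ, (N1 τ).encard ≤ (4 : ℕ) := by
    intro τ
    refine (Set.encard_insert_le _ _).trans ?_
    refine (add_le_add_left (Set.encard_insert_le _ _) _).trans ?_
    refine (add_le_add_left (add_le_add_left (Set.encard_insert_le _ _) _) _).trans ?_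
    rw [Set.encard_singleton]
    norm_num
  have h2 : ∀ s : Finset (Fin d), (⋃ i ∈ s, N1 (x i)).encard ≤ (4 * s.card : ℕ) := by
    intro s
    induction s using Finset.induction_on with
    | empty => simp
    | insert a s ha ih =>
      rw [Finset.set_biUnion_insert, Finset.card_insert_of_notMem ha, mul_add, add_comm, mul_one, Nat.cast_add]
      exact (encard_union_le _ _).trans (add_le_add (h3 _) ih)
  rw [h1]
  refine (h2 _).trans ?_
  rw [Finset.card_univ, Fintype.card_fin]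

/-- generic points and exponents -/
def GenX (K : Subfield ℂ) (b a : ℕ) : Set (Fin (b + a) → ℂ) :=
  {w | (fun i => w (Fin.castAdd a i)) ∈ GenJ K b ∧
    ∀ c : Fin a → ℂ, (∀ j, c j ∈ K) → ∑ j, c j * w (Fin.natAdd b j) ∈ K → c = 0}

theorem dimH_GenX {K : Subfield ℂ} (hK : (K : Set ℂ).Countable) (b a : ℕ) :
    ((2 * (b + a) : ℕ) : ℝ≥0∞) ≤ dimH (GenX K b a) := by
  classical
  rcases Nat.eq_zero_or_pos (b + a) with h0 | hd
  · have h1 : 2 * (b + a) = 0 := by omega
    rw [h1, Nat.cast_zero]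
    exact zero_le
  have hKc : Countable K := hK.to_subtype
  by_contra hcon
  push Not at hcon
  set U : Set (Fin (b + a) → ℂ) := UX (kd b a) with hU
  have hUd : dimH U = (2 * (b + a) : ℕ) := by
    have h1 : (interior U).Nonempty := by
      rw [(isOpen_UX _).interior_eq]
      exact ⟨fun _ => Complex.I, fun _ _ => by simp⟩
    have h2 : finrank ℝ (Fin (b + a) → ℂ) = 2 * (b + a) := by
      rw [Module.finrank_pi_fintype]
      simp [Complex.finrank_real_complex, mul_comm]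
    rw [Real.dimH_of_nonempty_interior h1, h2]
  let B1 : Fin b × K → Set (Fin (b + a) → ℂ) := fun q => {x | x ∈ U ∧ x (Fin.castAdd a q.1) = q.2}
  let I2 := {q : (Fin b × Fin b) × (Fin 4 → ℚ) // q.1.1 ≠ q.1.2 ∧ 0 < q.2 0 * q.2 3 - q.2 1 * q.2 2}
  let B2 : I2 → Set (Fin (b + a) → ℂ) := fun q => {x | x ∈ U ∧ x (Fin.castAdd a q.1.1.2) *
    (q.1.2 2 * x (Fin.castAdd a q.1.1.1) + q.1.2 3) = q.1.2 0 * x (Fin.castAdd a q.1.1.1) + q.1.2 1}
  let I3 := {q : (Fin a → K) × K // q.1 ≠ 0}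
  let B3 : I3 → Set (Fin (b + a) → ℂ) := fun q => {x | x ∈ U ∧ ∑ j, (q.1.1 j : ℂ) * x (Fin.natAdd b j) = q.1.2}
  have h1 : ∀ q, dimH (B1 q) ≤ (2 * (b + a - 1) : ℕ) := by
    intro q
    apply dimH_le_of_local
    rintro x ⟨hx, hq⟩
    have hs : HasStrictFDerivAt (fun y : Fin (b + a) → ℂ => y (Fin.castAdd a q.1))
        (ContinuousLinearMap.proj (Fin.castAdd a q.1) : (Fin (b + a) → ℂ) →L[ℂ] ℂ) x :=
      (ContinuousLinearMap.proj (Fin.castAdd a q.1) : (Fin (b + a) → ℂ) →L[ℂ] ℂ).hasStrictFDerivAt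
    obtain ⟨t, ht, h⟩ := dimH_lev hs (fun h0 => by
      have := congrArg (fun f => f (Pi.single (Fin.castAdd a q.1) 1)) h0
      simp at this)
    refine ⟨t ∩ B1 q, Filter.inter_mem (mem_nhdsWithin_of_mem_nhds ht) self_mem_nhdsWithin,
      le_trans (dimH_mono ?_) h⟩
    rintro y ⟨hy, hy'⟩
    exact ⟨hy, hy'.2.trans hq.symm⟩
  have h2 : ∀ q, dimH (B2 q) ≤ (2 * (b + a - 1) : ℕ) := by
    rintro ⟨⟨⟨i, k⟩, m⟩, hik, hm⟩
    apply dimH_le_of_local
    rintro x ⟨hx, hq⟩
    replace hq : x (Fin.castAdd a k) * (m 2 * x (Fin.castAdd a i) + m 3) = m 0 * x (Fin.castAdd a i) + m 1 := hq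
    have hik0 : i ≠ k := hik
    replace hik : Fin.castAdd a i ≠ Fin.castAdd a k := fun h => hik0 (Fin.castAdd_injective b a h)
    replace hm : 0 < m 0 * m 3 - m 1 * m 2 := hm
    set i' := Fin.castAdd a i with hi'
    set k' := Fin.castAdd a k with hk'
    have pi : HasStrictFDerivAt (fun y : Fin (b + a) → ℂ => y i') (ContinuousLinearMap.proj i' :
        (Fin (b + a) → ℂ) →L[ℂ] ℂ) x := (ContinuousLinearMap.proj i' : (Fin (b + a) → ℂ) →L[ℂ] ℂ).hasStrictFDerivAt
    have pk : HasStrictFDerivAt (fun y : Fin (b + a) → ℂ => y k') (ContinuousLinearMap.proj k' :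
        (Fin (b + a) → ℂ) →L[ℂ] ℂ) x := (ContinuousLinearMap.proj k' : (Fin (b + a) → ℂ) →L[ℂ] ℂ).hasStrictFDerivAt
    have hs := (pk.mul ((pi.const_mul (m 2 : ℂ)).add_const (m 3 : ℂ))).sub
      ((pi.const_mul (m 0 : ℂ)).add_const (m 1 : ℂ))
    have hne : (m 2 : ℂ) * x i' + m 3 ≠ 0 := den_ne (hx i' (kd_left b a i)) (by
      rintro ⟨h3, h4⟩
      rw [h3, h4] at hm
      simp at hm)
    obtain ⟨t, ht, h⟩ := dimH_lev hs (fun h0 => by
      have := congrArg (fun f => f (Pi.single k' 1)) h0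
      simp [Pi.single_eq_of_ne hik] at this
      exact hne this)
    refine ⟨t ∩ B2 ⟨((i, k), m), hik0, hm⟩,
      Filter.inter_mem (mem_nhdsWithin_of_mem_nhds ht) self_mem_nhdsWithin,
      le_trans (dimH_mono ?_) h⟩
    rintro y ⟨hy, hy'⟩
    refine ⟨hy, ?_⟩
    have e1 : y k' * (m 2 * y i' + m 3) = m 0 * y i' + m 1 := hy'.2
    change y k' * (m 2 * y i' + m 3) - (m 0 * y i' + m 1) = x k' * (m 2 * x i' + m 3) - (m 0 * x i' + m 1)
    rw [e1, hq, sub_self, sub_self]
  have h3 : ∀ q, dimH (B3 q) ≤ (2 * (b + a - 1) : ℕ) := by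
    rintro ⟨⟨e, k⟩, he⟩
    replace he : e ≠ 0 := he
    apply dimH_le_of_local
    rintro x ⟨hx, hq⟩
    let f : (Fin (b + a) → ℂ) →L[ℂ] ℂ := ∑ j, (e j : ℂ) • (ContinuousLinearMap.proj (Fin.natAdd b j) :
        (Fin (b + a) → ℂ) →L[ℂ] ℂ)
    have hf : ∀ y, f y = ∑ j, (e j : ℂ) * y (Fin.natAdd b j) := by
      intro y
      simp [f]
    obtain ⟨t, ht, h⟩ := dimH_lev (f := f) (f.hasStrictFDerivAt (x := x)) (fun h0 => by
      apply he
      funext j
      have h4 := congrArg (fun f => f (Pi.single (Fin.natAdd b j) 1)) h0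
      change f _ = 0 at h4
      rw [hf, Finset.sum_eq_single j] at h4
      · rw [Pi.single_eq_same, mul_one] at h4
        exact Subtype.ext h4
      · intro i _ hij
        rw [Pi.single_eq_of_ne (fun h => hij (Fin.natAdd_injective _ b h)), mul_zero]
      · intro h; exact absurd (Finset.mem_univ _) h)
    refine ⟨t ∩ B3 ⟨(e, k), he⟩, Filter.inter_mem (mem_nhdsWithin_of_mem_nhds ht) self_mem_nhdsWithin,
      le_trans (dimH_mono ?_) h⟩
    rintro y ⟨hy, hy'⟩
    refine ⟨hy, ?_⟩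
    rw [hf, hf]
    exact hy'.2.trans hq.symm
  have h5 : U ⊆ GenX K b a ∪ ((⋃ q, B1 q) ∪ ((⋃ q, B2 q) ∪ ⋃ q, B3 q)) := by
    intro x hx
    by_cases hg : x ∈ GenX K b a
    · exact Or.inl hg
    right
    by_cases hk : ∀ i : Fin b, x (Fin.castAdd a i) ∉ K
    swap
    · left
      push Not at hk
      obtain ⟨i, hi⟩ := hk
      exact mem_iUnion.2 ⟨(i, ⟨x (Fin.castAdd a i), hi⟩), hx, rfl⟩
    right
    by_cases hj : ∀ c : Fin a → ℂ, (∀ j, c j ∈ K) → ∑ j, c j * x (Fin.natAdd b j) ∈ K → c = 0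
    · left
      have h4 : ¬ ∀ i k : Fin b, i ≠ k → ¬ GL2Q (x (Fin.castAdd a i)) (x (Fin.castAdd a k)) :=
        fun h => hg ⟨⟨fun i => hx _ (kd_left b a i), hk, h⟩, hj⟩
      push Not at h4
      obtain ⟨i, k, hik, p, q, r, e, he, h5⟩ := h4
      exact mem_iUnion.2 ⟨⟨((i, k), ![p, q, r, e]), hik, he⟩, hx, h5⟩
    · right
      push Not at hj
      obtain ⟨c, hc, h4, hc0⟩ := hj
      refine mem_iUnion.2 ⟨⟨((fun j => ⟨c j, hc j⟩), ⟨_, h4⟩), fun h => hc0 ?_⟩, hx, rfl⟩
      funext j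
      exact congrArg Subtype.val (congrFun h j)
  have h6 : dimH U ≤ max (dimH (GenX K b a)) ((2 * (b + a - 1) : ℕ) : ℝ≥0∞) := by
    refine (dimH_mono h5).trans ?_
    rw [dimH_union, dimH_union, dimH_union, dimH_iUnion, dimH_iUnion, dimH_iUnion]
    exact max_le_max le_rfl (max_le (iSup_le h1) (max_le (iSup_le h2) (iSup_le h3)))
  rw [hUd] at h6
  have h7 : ((2 * (b + a - 1) : ℕ) : ℝ≥0∞) < ((2 * (b + a) : ℕ) : ℝ≥0∞) := by
    exact_mod_cast (by omega : 2 * (b + a - 1) < 2 * (b + a))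
  exact absurd h6 (not_le.2 (max_lt hcon h7))

/-- adding generic points and exponents -/
theorem FailX.generic {b a : ℕ} {z : Fin n → ℂ} {t : Fin s → ℂ} (h : FailX P B c n s (m + (b + a)) z t)
    (hK : FldX K) (hBK : ∀ x ∈ B, x ∈ K) (hz : ∀ i, z i ∈ K) (ht : ∀ i, t i ∈ K)
    {w : Fin (b + a) → ℂ} (hw : w ∈ GenX K b a) :
    FailX P B c (n + b) (s + a) m (Fin.append z fun i => w (Fin.castAdd a i))
      (Fin.append t fun i => w (Fin.natAdd b i)) := by
  obtain ⟨⟨hxU, hxK, hxG⟩, hwE⟩ := hw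
  have hqK : ∀ q : ℚ, (q : ℂ) ∈ K := fun q => SubfieldClass.ratCast_mem K q
  set x : Fin b → ℂ := fun i => w (Fin.castAdd a i) with hx
  set y : Fin a → ℂ := fun i => w (Fin.natAdd b i) with hy
  refine ⟨?_, ?_, ?_, ?_, ?_⟩
  · intro i
    refine Fin.addCases (fun i => ?_) (fun j => ?_) i
    · rw [Fin.append_left]; exact h.im i
    · rw [Fin.append_right]; exact hxU j
  · intro i
    refine Fin.addCases (fun i => ?_) (fun j => ?_) i
    · rw [Fin.append_left]; exact h.ncm i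
    · rw [Fin.append_right]; exact fun hcm => hxK j (hK.alg_mem hcm.alg)
  · intro i k
    refine Fin.addCases (fun i => ?_) (fun j => ?_) i
    · refine Fin.addCases (fun k => ?_) (fun k => ?_) k
      · intro hik
        rw [Fin.append_left, Fin.append_left]
        exact h.ineq i k fun hik' => hik (by rw [hik'])
      · intro _ hG
        rw [Fin.append_left, Fin.append_right] at hG
        exact hxK k (hG.mem_right (h.im i) (hz i))
    · refine Fin.addCases (fun k => ?_) (fun k => ?_) k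
      · intro _ hG
        rw [Fin.append_left, Fin.append_right] at hG
        exact hxK j (hG.mem_left (h.im k) (hz k))
      · intro hik
        rw [Fin.append_right, Fin.append_right]
        exact hxG j k fun hik' => hik (by rw [hik'])
  · intro e h0
    rw [Fin.sum_univ_add] at h0
    simp only [Fin.append_left, Fin.append_right] at h0
    have h1 := hwE (fun j : Fin a => (e (Fin.natAdd s j) : ℂ)) (fun j => hqK _) (by
      have h2 := K.sub_mem (hBK _ h0) (K.sum_mem fun i (_ : i ∈ Finset.univ) =>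
        show e (Fin.castAdd a i) • t i ∈ K by
          rw [Rat.smul_def]
          exact K.mul_mem (hqK _) (ht i))
      rw [add_sub_cancel_left] at h2
      simp only [Rat.smul_def] at h2
      exact h2)
    have h2 : ∀ j : Fin a, e (Fin.natAdd s j) = 0 := by
      intro j
      have := congrFun h1 j
      rw [Pi.zero_apply] at this
      exact_mod_cast this
    simp only [h2, zero_smul, Finset.sum_const_zero, add_zero] at h0
    have h3 := h.indE (fun i => e (Fin.castAdd a i)) h0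
    funext i
    refine Fin.addCases (fun i => ?_) (fun j => ?_) i
    · exact congrFun h3 i
    · exact h2 j
  · have e : P ∪ (NS (range (Fin.append z x)) ∪ ET (Fin.append t y)) =
        (P ∪ (NS (range z) ∪ ET t)) ∪ (NS (range x) ∪ ET y) := by
      rw [range_append, NS_union, ET_append]
      ext v
      simp only [mem_union]
      tauto
    rw [e]
    have h1 := (MK (⊥ : IntermediateField ℚ ℂ)).eRk_union_le_eRk_add_encard (P ∪ (NS (range z) ∪ ET t))
      (NS (range x) ∪ ET y)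
    have h2 : (NS (range x) ∪ ET y).encard ≤ ((4 * b + 2 * a : ℕ) : ℕ∞) := by
      refine (encard_union_le _ _).trans ?_
      rw [Nat.cast_add]
      exact add_le_add (encard_NS x) (encard_ET y)
    have h3 := h.rk
    calc (MK (⊥ : IntermediateField ℚ ℂ)).eRk ((P ∪ (NS (range z) ∪ ET t)) ∪ (NS (range x) ∪ ET y)) + m
        ≤ ((MK (⊥ : IntermediateField ℚ ℂ)).eRk (P ∪ (NS (range z) ∪ ET t)) + ((4 * b + 2 * a : ℕ) : ℕ∞)) + m := by
          gcongr
          exact h1.trans (add_le_add le_rfl h2)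
      _ = ((MK (⊥ : IntermediateField ℚ ℂ)).eRk (P ∪ (NS (range z) ∪ ET t)) + (m + (b + a) : ℕ)) +
            (3 * b + a : ℕ) := by
          have e1 : ((4 * b + 2 * a : ℕ) : ℕ∞) + m = ((m + (b + a) : ℕ) : ℕ∞) + ((3 * b + a : ℕ) : ℕ∞) := by
            rw [← Nat.cast_add, ← Nat.cast_add]
            congr 1
            omega
          rw [add_assoc, e1, ← add_assoc]
      _ ≤ ((3 * n + s + c : ℕ) : ℕ∞) + (3 * b + a : ℕ) := by gcongr
      _ = ((3 * (n + b) + (s + a) + c : ℕ) : ℕ∞) := by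
          rw [← Nat.cast_add]
          congr 1
          omega

/-- the set of the failures -/
def FX (P : Set ℂ) (B : Submodule ℚ ℂ) (c n s m : ℕ) : Set (Fin (n + s) → ℂ) :=
  {w | FailX P B c n s m (fun i => w (Fin.castAdd s i)) (fun i => w (Fin.natAdd n i))}

theorem mem_FX {w : Fin (n + s) → ℂ} : w ∈ FX P B c n s m ↔
    FailX P B c n s m (fun i => w (Fin.castAdd s i)) (fun i => w (Fin.natAdd n i)) := Iff.rfl

theorem append_mem_FX {z : Fin n → ℂ} {t : Fin s → ℂ} : Fin.append z t ∈ FX P B c n s m ↔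
    FailX P B c n s m z t := by
  rw [mem_FX]
  simp only [Fin.append_left, Fin.append_right]

theorem FX_nonempty : (FX P B c n s m).Nonempty ↔
    ∃ (z : Fin n → ℂ) (t : Fin s → ℂ), FailX P B c n s m z t := by
  constructor
  · rintro ⟨w, hw⟩
    exact ⟨_, _, hw⟩
  · rintro ⟨z, t, h⟩
    exact ⟨_, append_mem_FX.2 h⟩

/-- the hypotheses on the base -/
structure BaseX (P : Set ℂ) (B : Submodule ℚ ℂ) : Prop where
  fin : P.Finite
  finB : FiniteDimensional ℚ B

theorem BaseX.cntB (h : BaseX P B) : (B : Set ℂ).Countable := by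
  have := h.finB
  have h3 : Countable B := (Module.finBasis ℚ B).equivFun.toEquiv.countable_iff.2 inferInstance
  exact Set.countable_coe_iff.1 h3

/-- a closed field which contains everything -/
theorem BaseX.exists_field (h : BaseX P B) {S : Set ℂ} (hS : S.Countable) :
    ∃ K : Subfield ℂ, FldX K ∧ P ⊆ K ∧ S ⊆ K ∧ ∀ x ∈ B, x ∈ K := by
  obtain ⟨K, hK, hKS⟩ := exists_FldX (S := P ∪ (S ∪ (B : Set ℂ)))
    (h.fin.countable.union (hS.union h.cntB))
  exact ⟨K, hK, fun x hx => hKS (Or.inl hx), fun x hx => hKS (Or.inr (Or.inl hx)),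
    fun x hx => hKS (Or.inr (Or.inr hx))⟩

/-- the admissible levels -/
def LevX (P : Set ℂ) (B : Submodule ℚ ℂ) (c n s m : ℕ) : Set ℕ :=
  {d | ∃ b a : ℕ, b ≤ n ∧ a ≤ s ∧ b + a = d ∧ (FX P B c (n - b) (s - a) (m + d)).Nonempty}

theorem LevX_bdd : BddAbove (LevX P B c n s m) := by
  refine ⟨n + s, ?_⟩
  rintro d ⟨b, a, h1, h2, rfl, -⟩
  exact add_le_add h1 h2

/-- the level of a failure -/
theorem FailX.level (hB : BaseX P B) {K : Subfield ℂ} (hK : FldX K)
    (hPK : P ⊆ K) {w : Fin (n + s) → ℂ} (hw : w ∈ FX P B c n s m) :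
    finrank ℂ (Tan (PX (kd n s)) K (PhX (kd n s) w)) ∈ LevX P B c n s m ∧
      (finrank ℂ (Tan (PX (kd n s)) K (PhX (kd n s) w)) = 0 → ∀ j, w j ∈ K) := by
  have hfB := hB.finB
  obtain ⟨⟨n₀, s₀, z₀, t₀, h1, h2, h3, h4⟩, h5⟩ := FailX.reduce (mem_FX.1 hw) hK hB.fin hPK
  rw [append_eta] at h3 h4 h5
  constructor
  · refine ⟨min (finrank ℂ (Tan (PX (kd n s)) K (PhX (kd n s) w))) (n - n₀),
      finrank ℂ (Tan (PX (kd n s)) K (PhX (kd n s) w)) -
        min (finrank ℂ (Tan (PX (kd n s)) K (PhX (kd n s) w))) (n - n₀), by omega,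
      by omega, by omega, FX_nonempty.2 (FailX.extend ?_ ?_ ⟨z₀, t₀, h4⟩)⟩ <;> omega
  · intro h0
    obtain ⟨h6, h7⟩ := h5 h0
    intro j
    refine Fin.addCases (fun i => ?_) (fun j => ?_) j
    · exact h6 i
    · exact h7 j

theorem LevX_down (hB : BaseX P B) {d e : ℕ} (hed : e ≤ d) (hd : d ∈ LevX P B c n s m) :
    e ∈ LevX P B c n s m := by
  have hfB := hB.finB
  obtain ⟨b, a, h1, h2, rfl, h3⟩ := hd
  obtain ⟨z, t, h4⟩ := FX_nonempty.1 h3
  refine ⟨min b e, e - min b e, by omega, by omega, by omega, FX_nonempty.2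
    (FailX.extend (n₀ := n - b) (s₀ := s - a) (by omega) (by omega) ⟨z, t, h4.mono (by omega)⟩)⟩

theorem lowerX (hB : BaseX P B) {d : ℕ} (hd : d ∈ LevX P B c n s m) :
    ((2 * d : ℕ) : ℝ≥0∞) ≤ dimH (FX P B c n s m) := by
  obtain ⟨b, a, h1, h2, rfl, h3⟩ := hd
  obtain ⟨n', rfl⟩ : ∃ n', n = n' + b := ⟨n - b, by omega⟩
  obtain ⟨s', rfl⟩ : ∃ s', s = s' + a := ⟨s - a, by omega⟩
  rw [Nat.add_sub_cancel, Nat.add_sub_cancel] at h3
  obtain ⟨z, t, h4⟩ := FX_nonempty.1 h3
  obtain ⟨K, hK, -, hS, hBK⟩ := hB.exists_field (S := range z ∪ range t)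
    ((countable_range z).union (countable_range t))
  have h5 : ∀ w ∈ GenX K b a, FailX P B c (n' + b) (s' + a) m
      (Fin.append z fun i => w (Fin.castAdd a i)) (Fin.append t fun i => w (Fin.natAdd b i)) :=
    fun w hw => FailX.generic h4 hK hBK (fun i => hS (Or.inl ⟨i, rfl⟩))
      (fun i => hS (Or.inr ⟨i, rfl⟩)) hw
  let σ : Fin (b + a) → Fin ((n' + b) + (s' + a)) := Fin.addCases
    (fun i => Fin.castAdd _ (Fin.natAdd n' i)) (fun i => Fin.natAdd _ (Fin.natAdd s' i))
  let π : (Fin ((n' + b) + (s' + a)) → ℂ) →L[ℂ] (Fin (b + a) → ℂ) :=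
    ContinuousLinearMap.pi fun j => ContinuousLinearMap.proj (σ j)
  refine (dimH_GenX hK.cnt b a).trans (le_trans (dimH_mono ?_)
    (π.lipschitz.dimH_image_le (FX P B c (n' + b) (s' + a) m)))
  intro w hw
  refine ⟨Fin.append (Fin.append z fun i => w (Fin.castAdd a i))
    (Fin.append t fun i => w (Fin.natAdd b i)), append_mem_FX.2 (h5 w hw), ?_⟩
  funext j
  change Fin.append (Fin.append z fun i => w (Fin.castAdd a i))
    (Fin.append t fun i => w (Fin.natAdd b i)) (σ j) = w j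
  refine Fin.addCases (fun i => ?_) (fun i => ?_) j
  · simp only [σ, Fin.addCases_left, Fin.append_left, Fin.append_right]
  · simp only [σ, Fin.addCases_right, Fin.append_right]

/-- **The dimension formula** -/
theorem dimX (hB : BaseX P B) :
    dimH (FX P B c n s m) = (2 * sSup (LevX P B c n s m) : ℕ) := by
  apply le_antisymm
  · obtain ⟨K, hK, hPK, -, -⟩ := hB.exists_field (S := ∅) Set.countable_empty
    refine (dimH_mono ?_).trans (dimH_Tan (P := PX (kd n s)) (K := K) (Φ := PhX (kd n s)) hK.cnt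
      (isOpen_UX (kd n s)) (fun x hx s₀ => PhX_der _ hx s₀) (sSup (LevX P B c n s m))).1
    intro w hw
    refine ⟨?_, le_csSup LevX_bdd (FailX.level hB hK hPK hw).1⟩
    rw [← append_eta w]
    exact append_mem_UX (mem_FX.1 hw).im
  · rcases Set.eq_empty_or_nonempty (LevX P B c n s m) with h | h
    · rw [h, csSup_empty]
      simp
    · exact lowerX hB (Nat.sSup_mem h LevX_bdd)

/-- **Countability** -/
theorem countableX (hB : BaseX P B) :
    (FX P B c n s m).Countable ↔ 1 ∉ LevX P B c n s m := by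
  constructor
  · intro h h1
    have h2 := lowerX hB h1
    rw [h.dimH_zero] at h2
    norm_num at h2
  · intro h
    obtain ⟨K, hK, hPK, -, -⟩ := hB.exists_field (S := ∅) Set.countable_empty
    refine Set.Countable.mono ?_ (Set.countable_univ_pi fun _ : Fin (n + s) => hK.cnt)
    intro w hw j _
    obtain ⟨h1, h2⟩ := FailX.level hB hK hPK hw
    refine h2 ?_ j
    by_contra h0
    exact h (LevX_down hB (Nat.one_le_iff_ne_zero.2 h0) h1)

end Pool.Agent.H445.MX
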