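import Pool.Agent.H445.MX.Uni

/-!
# Bounds and monotonicity
-/

set_option autoImplicit false

open Set Filter Module
open scoped Topology ENNReal

noncomputable section

namespace Pool.Agent.H445.MX

open H667R3 Pool.Agent.W245.EB
open Pool.Agent.Y685 Pool.Agent.TH813.Ell Pool.Agent.Y776 Pool.Agent.Y776.Fam Pool.Agent.Y776.AxJ
open Pool.Agent.TH813.Rel (MK subset_cl rk_le_of_subset_cl)
open Pool.Agent.H445.MJ

variable {n s m c : ℕ} {K : Subfield ℂ} {P : Set ℂ} {B : Submodule ℚ ℂ}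

/-- more points and exponents -/
theorem VX_extend (hB : BaseX P B) {n' s' : ℕ} (hn : n ≤ n') (hs : s ≤ s') (h : (VX P B c n s m).Nonempty) :
    (VX P B c n' s' m).Nonempty := by
  obtain ⟨z, t, hz⟩ := VX_nonempty.1 h
  obtain ⟨a, w, σ, -, -, h3, -, h4⟩ := hz.choose
  have h5 : 0 ∈ LevX (P ∪ MJ.NS (cmS (range z))) B ((oC (cmS (range z))).ncard + c) a (dimQ B t) m :=
    ⟨0, 0, Nat.zero_le _, Nat.zero_le _, rfl, FX_nonempty.2 ⟨w, _, h4⟩⟩
  obtain ⟨b, a', h6, h7, h8, h9⟩ := LevX_sub (n := n') (s := s') hB (hz.fin.subset fun x hx => hx.1)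
    (fun x hx => ⟨hz.im x hx.1, hx.2⟩) ((h3.trans (ncard_range_le z)).trans hn) ((dimQ_le B t).trans hs) h5
  have hb : b = 0 := by omega
  have ha : a' = 0 := by omega
  subst hb ha
  exact h9

theorem VX_mono {m' : ℕ} (hm : m ≤ m') : VX P B c n s m' ⊆ VX P B c n s m := by
  intro w hw
  refine ⟨hw.fin, hw.im, le_trans ?_ hw.rk⟩
  gcongr

theorem cntC_le (z : Fin n → ℂ) : cntC (range z) ≤ 3 * n := by
  classical
  have h1 : (oN (range z)).ncard + (oC (range z)).ncard ≤ n := by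
    have hf : (range z).Finite := finite_range z
    have h2 : (oN (range z)).ncard ≤ {x | x ∈ range z ∧ ¬ CMp x}.ncard :=
      ncard_image_le (hf.subset fun x hx => hx.1)
    have h3 : (oC (range z)).ncard ≤ {x | x ∈ range z ∧ CMp x}.ncard :=
      ncard_image_le (hf.subset fun x hx => hx.1)
    have h4 : {x | x ∈ range z ∧ ¬ CMp x}.ncard + {x | x ∈ range z ∧ CMp x}.ncard = (range z).ncard := by
      rw [← ncard_union_eq _ (hf.subset fun x hx => hx.1) (hf.subset fun x hx => hx.1)]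
      · congr 1
        ext x
        constructor
        · rintro (h | h)
          · exact h.1
          · exact h.1
        · intro h
          by_cases hx : CMp x
          · exact Or.inr ⟨h, hx⟩
          · exact Or.inl ⟨h, hx⟩
      · rw [Set.disjoint_left]
        rintro x ⟨-, h⟩ ⟨-, h'⟩
        exact h h'
    have h5 := ncard_range_le z
    omega
  rw [cntC]
  omega

/-- the bound -/
theorem VX_bound (hP : 2 * (Real.pi : ℂ) * Complex.I ∈ P) (h : (VX P B 1 n s m).Nonempty) : m ≤ 3 * n + s := by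
  obtain ⟨z, t, hz⟩ := VX_nonempty.1 h
  have h1 : 1 ≤ (MK (⊥ : IntermediateField ℚ ℂ)).eRk (insert (1 : ℂ) (P ∪ (MJ.NS (range z) ∪ ET t))) := by
    refine one_le_rank alg_bot (x := 2 * (Real.pi : ℂ) * Complex.I) (by simp [Real.pi_ne_zero])
      (Or.inr (Or.inl hP)) ?_
    rw [Complex.exp_two_pi_mul_I]
    exact Or.inl rfl
  have h2 : (MK (⊥ : IntermediateField ℚ ℂ)).eRk (insert (1 : ℂ) (P ∪ (MJ.NS (range z) ∪ ET t))) ≤
      (MK (⊥ : IntermediateField ℚ ℂ)).eRk (P ∪ (MJ.NS (range z) ∪ ET t)) := by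
    apply rk_le_of_subset_cl
    rintro x (rfl | hx)
    · exact alg_mem_cl isAlgebraic_one _
    · exact subset_cl _ hx
  have h3 : ((1 + m : ℕ) : ℕ∞) ≤ ((cntC (range z) + dimQ B t + 1 : ℕ) : ℕ∞) := by
    refine le_trans ?_ hz.rk
    rw [Nat.cast_add, Nat.cast_one]
    gcongr
    exact h1.trans h2
  have h4 : 1 + m ≤ cntC (range z) + dimQ B t + 1 := by exact_mod_cast h3
  have h5 := cntC_le z
  have h6 := dimQ_le B t
  omega

end Pool.Agent.H445.MX
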