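import Pool.Agent.H445.MJ.Uni
import Pool.Agent.H445.EllG

/-!
# Countable closed fields for exponentials and the functions on the upper half-plane
-/

set_option autoImplicit false

open Set Module MvPolynomial
open Pool.Agent.TH813.Rel (DF MK subset_cl rk_le_of_subset_cl cl_of_base exists_derF)
open Pool.Agent.Y685
open Pool.Agent.Y776 (T0 T0_spec be0 Good good_der good_union countable_bad exists_chain grC Grad Tf Tf_lin ET
  ET_finite)
open Pool.Agent.Y776.AxJ
open Pool.Agent.W245.EB Pool.Agent.TH813.Ell H667R3 Pool.Agent.Y119.CB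
open Pool.Agent.H445.MJ

noncomputable section

namespace Pool.Agent.H445.MX

variable {N : ℕ} {K : Subfield ℂ}

/-- names of the numbers -/
abbrev SX (N : ℕ) : Type := (Fin N × Fin 5) ⊕ Unit

/-- the vector field of one coordinate: a point of the upper half-plane or an exponent -/
def vX : Bool → Fin N → Fin 5 → MvPolynomial (SX N) ℚ
  | true, i => Fin.cons 1 (w4 (X (Sum.inr ())) (C (1 / 12)) (C (1 / 3)) (fun k => X (Sum.inl (i, k.succ))))
  | false, i => ![1, X (Sum.inl (i, 1)), 0, 0, 0]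

/-- the vector fields -/
def PX (κ : Fin N → Bool) (j : Fin N) : SX N → MvPolynomial (SX N) ℚ :=
  Sum.elim (fun p => if p.1 = j then vX (κ p.1) p.1 p.2 else 0) (fun _ => 0)

/-- the functions of one coordinate -/
def b5X : Bool → Fin 5 → ℂ → ℂ
  | true => b5J
  | false => ![id, Complex.exp, 0, 0, 0]

/-- their derivatives -/
def d5X : Bool → Fin 5 → ℂ → ℂ
  | true, k, t => (Fin.cons 1 (v4 fun k => hp4 k t) : Fin 5 → ℂ) k
  | false, k, t => (![1, Complex.exp t, 0, 0, 0] : Fin 5 → ℂ) k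

/-- the numbers -/
def PhX (κ : Fin N → Bool) (x : Fin N → ℂ) : SX N → ℂ := Sum.elim (fun p => b5X (κ p.1) p.2 (x p.1)) (fun _ => be0)

/-- the domain -/
def UX (κ : Fin N → Bool) : Set (Fin N → ℂ) := {x | ∀ i, κ i = true → 0 < (x i).im}

theorem isOpen_UX (κ : Fin N → Bool) : IsOpen (UX κ) := by
  have : UX κ = ⋂ i, {x : Fin N → ℂ | κ i = true → 0 < (x i).im} := by
    ext x
    simp [UX]
  rw [this]
  refine isOpen_iInter_of_finite fun i => ?_
  by_cases h : κ i = true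
  · simp only [h, true_imp_iff]
    exact isOpen_lt continuous_const (Complex.continuous_im.comp (continuous_apply i))
  · have e : {x : Fin N → ℂ | κ i = true → 0 < (x i).im} = univ := by
      ext x
      simp [h]
    rw [e]
    exact isOpen_univ

theorem aeval_vX (κ : Fin N → Bool) (x : Fin N → ℂ) (i : Fin N) (k : Fin 5) :
    aeval (PhX κ x) (vX (κ i) i k) = d5X (κ i) k (x i) := by
  have e0 : ∀ k, PhX κ x (Sum.inl (i, k)) = b5X (κ i) k (x i) := fun k => rfl
  have e9 : PhX κ x (Sum.inr ()) = be0 := rfl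
  revert e0
  generalize κ i = b
  intro e0
  cases b
  · fin_cases k
    · simp [vX, d5X]
    · change aeval (PhX κ x) (X (Sum.inl (i, 1))) = Complex.exp (x i)
      rw [aeval_X, e0]
      rfl
    · simp [vX, d5X]
    · simp [vX, d5X]
    · simp [vX, d5X]
  · refine Fin.cases ?_ (fun k => ?_) k
    · change aeval (PhX κ x) 1 = 1
      rw [map_one]
    · change aeval (PhX κ x) (w4 (X (Sum.inr ())) (C (1 / 12)) (C (1 / 3)) (fun k => X (Sum.inl (i, k.succ))) k) =
        (v4 fun k => hp4 k (x i)) k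
      rw [← w4_v4]
      have h1 := w4_map ((aeval (PhX κ x) : MvPolynomial (SX N) ℚ →ₐ[ℚ] ℂ) : MvPolynomial (SX N) ℚ →+* ℂ)
        (X (Sum.inr ())) (C (1 / 12)) (C (1 / 3)) (fun k : Fin 4 => X (Sum.inl (i, k.succ))) k
      refine h1.trans ?_
      simp only [RingHom.coe_coe, aeval_X, aeval_C]
      have e1 : (algebraMap ℚ ℂ) (1 / 12) = 1 / 12 := by simp
      have e2 : (algebraMap ℚ ℂ) (1 / 3) = 1 / 3 := by simp
      rw [e1, e2, e9]
      have e3 : (fun j : Fin 4 => PhX κ x (Sum.inl (i, j.succ))) = fun k => hp4 k (x i) := by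
        funext j
        rw [e0]
        change b5J j.succ (x i) = _
        rw [b5J, Fin.cons_succ]
      rw [e3]

theorem b5X_der (b : Bool) (k : Fin 5) {t : ℂ} (ht : b = true → 0 < t.im) :
    HasDerivAt (b5X b k) (d5X b k t) t := by
  cases b
  · fin_cases k
    · exact hasDerivAt_id t
    · exact Complex.hasDerivAt_exp t
    · exact hasDerivAt_const t (0 : ℂ)
    · exact hasDerivAt_const t (0 : ℂ)
    · exact hasDerivAt_const t (0 : ℂ)
  · exact b5J_der k (ht rfl)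

theorem PhX_der (κ : Fin N → Bool) {x : Fin N → ℂ} (hx : x ∈ UX κ) (s : SX N) :
    HasFDerivAt (fun y => PhX κ y s) (∑ j, (aeval (PhX κ x) (PX κ j s)) •
      (ContinuousLinearMap.proj j : (Fin N → ℂ) →L[ℂ] ℂ)) x := by
  rcases s with ⟨i, k⟩ | ⟨⟩
  · have h1 : (∑ j, (aeval (PhX κ x) (PX κ j (Sum.inl (i, k)))) •
        (ContinuousLinearMap.proj j : (Fin N → ℂ) →L[ℂ] ℂ)) =
        (d5X (κ i) k (x i)) • (ContinuousLinearMap.proj i : (Fin N → ℂ) →L[ℂ] ℂ) := by
      rw [Finset.sum_eq_single i]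
      · change aeval (PhX κ x) (if i = i then vX (κ i) i k else 0) • _ = _
        rw [if_pos rfl, aeval_vX]
      · intro j _ hj
        change aeval (PhX κ x) (if i = j then vX (κ i) i k else 0) • _ = _
        rw [if_neg (Ne.symm hj), map_zero]
        refine ContinuousLinearMap.ext fun v => ?_
        simp
      · intro h; exact absurd (Finset.mem_univ _) h
    rw [h1]
    have h2 := (b5X_der (κ i) k (hx i)).comp_hasFDerivAt x
      (ContinuousLinearMap.proj i : (Fin N → ℂ) →L[ℂ] ℂ).hasFDerivAt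
    exact h2
  · have h1 : (∑ j, (aeval (PhX κ x) (PX κ j (Sum.inr ()))) •
        (ContinuousLinearMap.proj j : (Fin N → ℂ) →L[ℂ] ℂ)) = 0 := by
      refine Finset.sum_eq_zero fun j _ => ?_
      change aeval (PhX κ x) (0 : MvPolynomial (SX N) ℚ) • _ = _
      rw [map_zero]
      refine ContinuousLinearMap.ext fun v => ?_
      simp
    rw [h1]
    exact hasFDerivAt_const _ _

/-- the exceptional points over a field -/
def badX (K : Subfield ℂ) : Set ℂ := {x | ∃ (N : ℕ) (κ : Fin N → Bool) (z : Fin N → ℂ) (j₀ : Fin N), z ∈ UX κ ∧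
    z j₀ = x ∧ ¬ Good (PX κ) K (PhX κ z) j₀}

theorem PhX_coord (κ : Fin N → Bool) (x : Fin N → ℂ) (j : Fin N) : PhX κ x (Sum.inl (j, 0)) = x j := by
  change b5X (κ j) 0 (x j) = x j
  cases κ j <;> rfl

theorem countable_badX {K : Subfield ℂ} (hK : (K : Set ℂ).Countable) : (badX K).Countable := by
  have h1 : ∀ (N : ℕ) (κ : Fin N → Bool) (j₀ : Fin N),
      {c : ℂ | ∃ a ∈ UX κ, a j₀ = c ∧ ¬ Good (PX κ) K (PhX κ a) j₀}.Countable := by
    intro N κ j₀
    exact countable_bad (PX κ) hK (isOpen_UX κ) (fun x hx s₀ => PhX_der κ hx s₀) (s₀ := Sum.inl (j₀, 0))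
      (fun x => PhX_coord κ x j₀)
  refine (Set.countable_iUnion fun N => Set.countable_iUnion fun κ => Set.countable_iUnion fun j₀ =>
    h1 N κ j₀).mono ?_
  rintro x ⟨N, κ, z, j₀, hz, rfl, hg⟩
  exact mem_iUnion.2 ⟨N, mem_iUnion.2 ⟨κ, mem_iUnion.2 ⟨j₀, z, hz, rfl, hg⟩⟩⟩

/-- closed fields -/
structure FldX (K : Subfield ℂ) : Prop where
  cnt : (K : Set ℂ).Countable
  alg : ∀ x, IsAlgebraic K x → x ∈ K
  t0 : ∀ τ ∈ T0, τ ∈ K
  be : be0 ∈ K
  val : ∀ τ ∈ K, ∀ k, hp4 k τ ∈ K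
  exp : ∀ x ∈ K, Complex.exp x ∈ K
  good : ∀ (N : ℕ) (κ : Fin N → Bool) (z : Fin N → ℂ) (j₀ : Fin N), z ∈ UX κ → z j₀ ∉ K →
    Good (PX κ) K (PhX κ z) j₀

/-- **Countable closed fields** -/
theorem exists_FldX {S : Set ℂ} (hS : S.Countable) : ∃ K : Subfield ℂ, FldX K ∧ S ⊆ K := by
  obtain ⟨K, F, hmono, hF, hFc, hSF, hTF, halg⟩ := exists_chain
    (fun k => badX k ∪ ((⋃ i, hp4 i '' (k : Set ℂ)) ∪ Complex.exp '' (k : Set ℂ)))
    (fun k hk => (countable_badX hk).union ((countable_iUnion fun i => hk.image _).union (hk.image _)))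
    (S₀ := T0 ∪ ({be0} ∪ S)) (T0_spec.1.union ((Set.countable_singleton _).union hS))
  refine ⟨F, ⟨hFc, halg, fun τ hτ => hSF (Or.inl hτ), hSF (Or.inr (Or.inl rfl)), ?_, ?_, ?_⟩,
    fun x hx => hSF (Or.inr (Or.inr hx))⟩
  · intro τ hτ k
    obtain ⟨i, hi⟩ := (hF τ).1 hτ
    exact hTF i (Or.inr (Or.inl (mem_iUnion.2 ⟨k, τ, hi, rfl⟩)))
  · intro τ hτ
    obtain ⟨i, hi⟩ := (hF τ).1 hτ
    exact hTF i (Or.inr (Or.inr ⟨τ, hi, rfl⟩))
  · intro N κ z j₀ hz hx
    refine good_union hmono (fun x hx => (hF x).1 hx) (fun i => ?_)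
    by_contra hcon
    apply hx
    exact hTF i (Or.inl ⟨N, κ, z, j₀, hz, rfl, hcon⟩)

/-- the compatible derivations -/
def CX (K : Subfield ℂ) (κ : Fin N → Bool) (z : Fin N → ℂ) : Submodule ℂ (Derivation ℚ ℂ ℂ) where
  carrier := {D | (∀ x ∈ K, D x = 0) ∧ (∀ i, κ i = true → Cj D (z i)) ∧ ∀ i, κ i = false → Tf D (z i) = 0}
  add_mem' := by
    rintro D D' ⟨a1, a2, a3⟩ ⟨b1, b2, b3⟩
    refine ⟨fun x hx => ?_, fun i hi => (CjS (z i)).add_mem (a2 i hi) (b2 i hi), fun i hi => ?_⟩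
    · rw [Derivation.add_apply, a1 x hx, b1 x hx, add_zero]
    · rw [Pool.Agent.Y776.Tf_add_der, a3 i hi, b3 i hi, add_zero]
  zero_mem' := by
    refine ⟨fun x _ => rfl, fun i _ => (CjS (z i)).zero_mem, fun i _ => ?_⟩
    simp [Tf, Pool.Agent.Y776.lg]
  smul_mem' := by
    rintro c D ⟨a1, a2, a3⟩
    refine ⟨fun x hx => ?_, fun i hi => (CjS (z i)).smul_mem c (a2 i hi), fun i hi => ?_⟩
    · rw [Derivation.smul_apply, a1 x hx, smul_zero]
    · rw [Pool.Agent.Y776.Tf_smul_der, a3 i hi, mul_zero]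

theorem mem_CX {κ : Fin N → Bool} {z : Fin N → ℂ} {D : Derivation ℚ ℂ ℂ} :
    D ∈ CX K κ z ↔ (∀ x ∈ K, D x = 0) ∧ (∀ i, κ i = true → Cj D (z i)) ∧ ∀ i, κ i = false → Tf D (z i) = 0 :=
  Iff.rfl

/-- every compatible direction comes from a derivation -/
theorem Tan_CX {κ : Fin N → Bool} {z : Fin N → ℂ} {v : Fin N → ℂ} (hv : v ∈ Tan (PX κ) K (PhX κ z)) :
    ∃ D ∈ CX K κ z, ∀ j, D (z j) = v j := by
  classical
  obtain ⟨D₀, hD⟩ := exists_derivation (k := K) (PhX κ z)
    (fun s₀ => ∑ j, v j * aeval (PhX κ z) (PX κ j s₀)) (by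
      intro H hH
      have h1 := hv _ ⟨H, hH, rfl⟩
      rw [← h1]
      simp only [grC, Finset.mul_sum, Finset.sum_mul]
      rw [Finset.sum_comm]
      exact Finset.sum_congr rfl fun j _ => Finset.sum_congr rfl fun s _ => by ring)
  set D : Derivation ℚ ℂ ℂ := D₀.restrictScalars ℚ with hDD
  have hk : ∀ x ∈ K, D x = 0 := fun c hc => D₀.map_algebraMap ⟨c, hc⟩
  have key : ∀ i k, D (b5X (κ i) k (z i)) = d5X (κ i) k (z i) * v i := by
    intro i k
    have h1 := hD (Sum.inl (i, k))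
    rw [Finset.sum_eq_single i] at h1
    · change D₀ (b5X (κ i) k (z i)) = v i * aeval (PhX κ z) (if i = i then vX (κ i) i k else 0) at h1
      rw [if_pos rfl, aeval_vX] at h1
      change D₀ (b5X (κ i) k (z i)) = _
      rw [h1, mul_comm]
    · intro j _ hj
      change v j * aeval (PhX κ z) (if i = j then vX (κ i) i k else 0) = 0
      rw [if_neg (Ne.symm hj), map_zero, mul_zero]
    · intro h; exact absurd (Finset.mem_univ _) h
  have k0 : ∀ i, D (z i) = v i := by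
    intro i
    have h1 := key i 0
    revert h1
    cases κ i
    · intro h1
      have h1 : D (z i) = 1 * v i := h1
      rw [h1, one_mul]
    · intro h1
      have h1 : D (z i) = 1 * v i := h1
      rw [h1, one_mul]
  refine ⟨D, mem_CX.2 ⟨hk, fun i hi => ⟨?_, ?_, ?_⟩, fun i hi => ?_⟩, k0⟩
  · have h1 := key i 1
    rw [hi] at h1
    rw [k0]
    exact h1
  · have h1 := key i 2
    rw [hi] at h1
    rw [k0]
    exact h1
  · have h1 := key i 3
    rw [hi] at h1
    rw [k0]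
    exact h1
  · have h1 := key i 1
    rw [hi] at h1
    have h2 : D (Complex.exp (z i)) = Complex.exp (z i) * v i := h1
    exact Tf_eq (k0 i) (by rw [h2, mul_comm])

theorem CX_le (κ : Fin N → Bool) (z : Fin N → ℂ) : CX K κ z ≤ DF (IFd K) := fun _ hD => hD.1

/-- a coordinate outside of the field is moved by a compatible derivation -/
theorem FldX.moves (hK : FldX K) {κ : Fin N → Bool} {z : Fin N → ℂ} (hz : z ∈ UX κ) {j : Fin N} (hx : z j ∉ K) :
    ∃ D ∈ CX K κ z, D (z j) ≠ 0 := by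
  obtain ⟨v, hv, hv1⟩ := good_Tan (hK.good N κ z j hz hx)
  obtain ⟨D, hD, hDv⟩ := Tan_CX hv
  refine ⟨D, hD, ?_⟩
  rw [hDv, hv1]
  exact one_ne_zero

/-- an exponent outside of the field is moved by a compatible derivation -/
theorem FldX.moves_ex (hK : FldX K) {κ : Fin N → Bool} {z : Fin N → ℂ} (hz : z ∈ UX κ) {x : ℂ} (hx : x ∉ K) :
    ∃ D ∈ CX K κ z, D x ≠ 0 := by
  obtain ⟨D, hD, hne⟩ := hK.moves (κ := (Fin.cons false κ : Fin (N + 1) → Bool))
    (z := (Fin.cons x z : Fin (N + 1) → ℂ)) (j := 0) (by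
      intro i
      refine Fin.cases ?_ (fun i => ?_) i
      · rw [Fin.cons_zero]
        intro h; cases h
      · rw [Fin.cons_succ, Fin.cons_succ]
        exact hz i) (by rwa [Fin.cons_zero])
  refine ⟨D, ⟨hD.1, fun i hi => ?_, fun i hi => ?_⟩, by rwa [Fin.cons_zero] at hne⟩
  · have := hD.2.1 i.succ (by rwa [Fin.cons_succ])
    rwa [Fin.cons_succ] at this
  · have := hD.2.2 i.succ (by rwa [Fin.cons_succ])
    rwa [Fin.cons_succ] at this

end Pool.Agent.H445.MX
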