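import Pool.Agent.H445.MX.Chain

/-!
# Failures of the inequality for points of the upper half-plane and exponents: reduction to a closed field
-/

set_option autoImplicit false

open Set Module MvPolynomial
open Pool.Agent.TH813.Rel (DF MK subset_cl rk_le_of_subset_cl cl_of_base exists_derF)
open Pool.Agent.Y685
open Pool.Agent.Y776 (T0 T0_spec be0 jf Tf Tf_lin ET ET_finite)
open Pool.Agent.Y776.AxJ
open Pool.Agent.W245.EB Pool.Agent.TH813.Ell H667R3
open Pool.Agent.H445.MJ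

noncomputable section

namespace Pool.Agent.H445.MX

variable {n s N : ℕ} {K : Subfield ℂ}

theorem FldX.N1_mem (hK : FldX K) {τ : ℂ} (h0 : τ ∈ K) : N1 τ ⊆ K := by
  rintro x (rfl | rfl | rfl | rfl)
  · exact h0
  · exact hK.val τ h0 0
  · exact hK.val τ h0 1
  · exact hK.val τ h0 2

theorem FldX.NS_mem (hK : FldX K) {S : Set ℂ} (h0 : S ⊆ K) : NS S ⊆ K := by
  rintro x hx
  obtain ⟨τ, hτ, hx⟩ := mem_iUnion₂.1 hx
  exact hK.N1_mem (h0 hτ) hx

theorem FldX.clo_le (hK : FldX K) {C : IntermediateField ℚ ℂ} (hC : C ≤ IFd K) {A : Set ℂ}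
    (hA : A ⊆ K) : clo C A ≤ IFd K := by
  intro x hx
  by_contra hxK
  have htr : Transcendental (IFd K) x := fun h => hxK (hK.alg x h)
  have hai : AlgebraicIndependent (IFd K) (fun _ : Unit => x) :=
    algebraicIndependent_unique_type_iff.2 htr
  obtain ⟨D, hD, hD1⟩ := exists_derF (IFd K) hai (fun _ => 1)
  have h1 : D x = 0 := hx D (fun c hc => hD c (hC hc)) (fun s hs => hD s (hA hs))
  rw [hD1 ()] at h1
  exact one_ne_zero h1

theorem FldX.alg_mem (hK : FldX K) {z : ℂ} (hz : IsAlgebraic ℚ z) : z ∈ K :=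
  hK.alg z (hz.extendScalars (algebraMap ℚ K).injective)

/-- an auxiliary lattice -/
theorem FldX.lattice (hK : FldX K) : ∃ (L : PeriodPair) (κ : ℂ), Eig L κ ∧ L.g₂ ∈ K ∧ L.g₃ ∈ K := by
  have hI : Complex.I ∈ K := hK.alg_mem ⟨Polynomial.X ^ 2 + 1, (Polynomial.monic_X_pow_add (by simp)).ne_zero, by simp⟩
  obtain ⟨κ, hE⟩ := exists_eig (LC Complex.I)
  exact ⟨LC Complex.I, κ, hE, hK.val _ hI 1, hK.val _ hI 2⟩

/-- `n` points and `s` exponents which miss the bound `3 n + s + c` by at least `m` -/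
structure FailX (P : Set ℂ) (B : Submodule ℚ ℂ) (c n s m : ℕ) (z : Fin n → ℂ) (t : Fin s → ℂ) : Prop where
  im : ∀ i, 0 < (z i).im
  ncm : ∀ i, ¬ CMp (z i)
  ineq : ∀ i k, i ≠ k → ¬ GL2Q (z i) (z k)
  indE : IndE B t
  rk : (MK (⊥ : IntermediateField ℚ ℂ)).eRk (P ∪ (NS (range z) ∪ ET t)) + m ≤ ((3 * n + s + c : ℕ) : ℕ∞)

variable {P : Set ℂ} {B : Submodule ℚ ℂ} {c m : ℕ}

theorem FailX.inj {z : Fin n → ℂ} {t : Fin s → ℂ} (h : FailX P B c n s m z t) :
    Function.Injective z := by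
  intro i k hik
  by_contra hne
  exact h.ineq i k hne (by rw [hik]; exact GL2Q.refl _)

/-- the kinds of the coordinates -/
def kd (n s : ℕ) : Fin (n + s) → Bool := Fin.append (fun _ => true) (fun _ => false)

theorem kd_left (n s : ℕ) (i : Fin n) : kd n s (Fin.castAdd s i) = true := by rw [kd, Fin.append_left]

theorem kd_right (n s : ℕ) (i : Fin s) : kd n s (Fin.natAdd n i) = false := by rw [kd, Fin.append_right]

theorem append_mem_UX {z : Fin n → ℂ} {t : Fin s → ℂ} (h : ∀ i, 0 < (z i).im) : Fin.append z t ∈ UX (kd n s) := by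
  intro i
  refine Fin.addCases (fun i => ?_) (fun i => ?_) i
  · intro _
    rw [Fin.append_left]
    exact h i
  · rw [kd_right]
    intro h; cases h

/-- **Reduction of a failure to the closed field** -/
theorem FailX.reduce {z : Fin n → ℂ} {t : Fin s → ℂ} (h : FailX P B c n s m z t) (hK : FldX K)
    (hP : P.Finite) (hPK : P ⊆ K) :
    (∃ (n₀ s₀ : ℕ) (z₀ : Fin n₀ → ℂ) (t₀ : Fin s₀ → ℂ), n₀ ≤ n ∧ s₀ ≤ s ∧
      finrank ℂ (Tan (PX (kd n s)) K (PhX (kd n s) (Fin.append z t))) + (n₀ + s₀) ≤ n + s ∧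
      FailX P B c n₀ s₀ (m + finrank ℂ (Tan (PX (kd n s)) K (PhX (kd n s) (Fin.append z t)))) z₀ t₀) ∧
    (finrank ℂ (Tan (PX (kd n s)) K (PhX (kd n s) (Fin.append z t))) = 0 → (∀ j, z j ∈ K) ∧ ∀ j, t j ∈ K) := by
  classical
  obtain ⟨L, κ, hE, hL2, hL3⟩ := hK.lattice
  set w := Fin.append z t with hw
  have hU : w ∈ UX (kd n s) := append_mem_UX h.im
  set S : Finset ℂ := (Finset.univ.filter fun i => z i ∉ K).image z with hS
  set I : Finset (Fin n) := Finset.univ.filter fun i => z i ∈ K with hI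
  have hScard : S.card + I.card = n := by
    rw [hS, Finset.card_image_of_injective _ h.inj, hI]
    have := Finset.card_filter_add_card_filter_not (s := (Finset.univ : Finset (Fin n))) (fun i => z i ∈ K)
    rw [Finset.card_univ, Fintype.card_fin] at this
    omega
  have hSz : ∀ τ ∈ S, ∃ i, z i ∉ K ∧ z i = τ := by
    intro τ hτ
    obtain ⟨i, hi, rfl⟩ := Finset.mem_image.1 hτ
    exact ⟨i, (Finset.mem_filter.1 hi).2, rfl⟩
  have hST : ∀ τ ∈ S, 0 < τ.im ∧ τ ∉ T0 := by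
    intro τ hτ
    obtain ⟨i, hi, rfl⟩ := hSz τ hτ
    exact ⟨h.im i, fun h0 => hi (hK.t0 _ h0)⟩
  -- the exponents
  set T : Submodule ℚ ℂ := Submodule.span ℚ (range t) with hT
  have hTf : FiniteDimensional ℚ T := FiniteDimensional.span_of_finite ℚ (finite_range t)
  have hTn : finrank ℚ T = s := by
    rw [hT, finrank_span_eq_card h.indE.li, Fintype.card_fin]
  have hT₀T : T ⊓ KQ K ≤ T := inf_le_left
  set T₀ : Submodule ℚ ℂ := T ⊓ KQ K with hT₀
  have hT₀f : FiniteDimensional ℚ T₀ := Submodule.finiteDimensional_of_le hT₀T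
  obtain ⟨T₁, hT₁T, hdjT, hcardT, hsupT⟩ := exists_rel_complk hT₀T
  have hT₁f : FiniteDimensional ℚ T₁ := Submodule.finiteDimensional_of_le hT₁T
  rw [hTn] at hcardT
  have hdT : ∀ x ∈ T₁, x ≠ 0 → x ∉ K := fun x hx hx0 hxK => hx0 (hdjT x hx ⟨hT₁T hx, hxK⟩)
  -- the derivations
  set Δ := CX K (kd n s) w with hΔ
  have hΔF : Δ ≤ DF (IFd K) := CX_le _ _
  have hCj : ∀ D ∈ Δ, ∀ i, Cj D (z i) := by
    intro D hD i
    have := hD.2.1 (Fin.castAdd s i) (kd_left n s i)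
    rwa [hw, Fin.append_left] at this
  have hTfz : ∀ D ∈ Δ, ∀ x ∈ T, Tf D x = 0 := by
    intro D hD x hx
    obtain ⟨q, rfl⟩ := mem_span_range hx
    rw [Tf_lin]
    refine Finset.sum_eq_zero fun j _ => ?_
    have := hD.2.2 (Fin.natAdd n j) (kd_right n s j)
    rw [hw, Fin.append_right] at this
    rw [this, mul_zero]
  have hch := chainX (K := IFd K) hE hL2 hL3 hK.be hΔF _ S T₁ hT₁f rfl hST (by
    intro τ hτ σ hσ hne
    obtain ⟨i, -, rfl⟩ := hSz τ hτ
    obtain ⟨k, -, rfl⟩ := hSz σ hσ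
    exact h.ineq i k fun hik => hne (by rw [hik])) (by
    intro D hD τ hτ
    obtain ⟨i, -, rfl⟩ := hSz τ hτ
    exact hCj D hD i) (fun D hD x hx => hTfz D hD x (hT₁T hx)) (by
    intro τ hτ
    obtain ⟨i, hi, rfl⟩ := hSz τ hτ
    obtain ⟨D, hD, hne⟩ := hK.moves hU (j := Fin.castAdd s i) (by rwa [hw, Fin.append_left])
    rw [hw, Fin.append_left] at hne
    exact ⟨D, hD, hne⟩) (fun x hx hx0 => hK.moves_ex hU (hdT x hx hx0))
  set d := finrank ℂ (Tan (PX (kd n s)) K (PhX (kd n s) w)) with hd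
  have hd1 : d ≤ finrank ℂ (Δ.map (rsX S T₁)) := by
    let ev : Derivation ℚ ℂ ℂ →ₗ[ℂ] (Fin (n + s) → ℂ) :=
      { toFun := fun D j => D (w j)
        map_add' := fun _ _ => rfl
        map_smul' := fun _ _ => rfl }
    have h4 : Tan (PX (kd n s)) K (PhX (kd n s) w) ≤ Δ.map ev := by
      intro v hv
      obtain ⟨D, hD, h5⟩ := Tan_CX hv
      exact ⟨D, hD, funext h5⟩
    refine (Submodule.finrank_mono h4).trans (finrank_map_le Δ _ _ ?_)
    intro D hD h0
    obtain ⟨h5, h6⟩ := rsX_eq_zero.1 h0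
    have h8 : ∀ x ∈ T, D x = 0 := by
      intro x hx
      obtain ⟨a, ha, b, hb, rfl⟩ := Submodule.mem_sup.1 (hsupT hx)
      rw [map_add, hD.1 _ ha.2, h6 _ hb, add_zero]
    funext j
    change D (w j) = 0
    refine Fin.addCases (fun j => ?_) (fun j => ?_) j
    · rw [hw, Fin.append_left]
      by_cases hj : z j ∈ K
      · exact hD.1 _ hj
      · exact h5 _ (Finset.mem_image.2 ⟨j, Finset.mem_filter.2 ⟨Finset.mem_univ _, hj⟩, rfl⟩)
    · rw [hw, Fin.append_right]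
      exact h8 _ (Submodule.subset_span ⟨j, rfl⟩)
  have hd2 := finrank_rsX_le S T₁ Δ
  -- bases
  obtain ⟨t₀, ht₀, hst₀⟩ := exists_tuple T₀
  obtain ⟨t₁, ht₁, hst₁⟩ := exists_tuple T₁
  have ht₀V : ∀ i, t₀ i ∈ T₀ := fun i => hst₀ ▸ Submodule.subset_span ⟨i, rfl⟩
  have ht₁V : ∀ i, t₁ i ∈ T₁ := fun i => hst₁ ▸ Submodule.subset_span ⟨i, rfl⟩
  have hch' : ((3 * S.card + finrank ℚ T₁ + finrank ℂ (Δ.map (rsX S T₁)) : ℕ) : ℕ∞) ≤
      (MK (IFd K)).eRk (NS S ∪ ET t₁) := by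
    refine hch.trans ?_
    apply rk_le_of_subset_cl
    rintro x (hx | hx)
    · exact subset_cl _ (Or.inl hx)
    · rw [← hst₁] at hx
      exact (MK _).closure_subset_closure subset_union_right (EV_subset_cl _ t₁ hx)
  -- the other points
  let e := I.equivFin
  let z₀ : Fin I.card → ℂ := fun i => z (e.symm i)
  have hz₀K : ∀ i, z₀ i ∈ K := fun i => (Finset.mem_filter.1 (e.symm i).2).2
  have hz₀i : ∀ i k, i ≠ k → ((e.symm i : I) : Fin n) ≠ ((e.symm k : I) : Fin n) := fun i k hik h =>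
    hik (e.symm.injective (Subtype.ext h))
  have hrange : range z₀ ∪ S ⊆ range z := by
    rintro x (⟨i, rfl⟩ | hx)
    · exact ⟨_, rfl⟩
    · obtain ⟨i, -, rfl⟩ := hSz x hx
      exact ⟨i, rfl⟩
  have hf0 : (P ∪ (NS (range z₀) ∪ ET t₀)).Finite := hP.union ((NS_finite (finite_range z₀)).union (ET_finite t₀))
  have hf1 : (NS (S : Set ℂ) ∪ ET t₁).Finite := (NS_finite S.finite_toSet).union (ET_finite t₁)
  have hrk : (MK (⊥ : IntermediateField ℚ ℂ)).eRk ((P ∪ (NS (range z₀) ∪ ET t₀)) ∪ (NS S ∪ ET t₁)) + m ≤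
      ((3 * n + s + c : ℕ) : ℕ∞) := by
    refine le_trans (add_le_add_left ?_ _) h.rk
    have h1 : (MK (⊥ : IntermediateField ℚ ℂ)).eRk (P ∪ (NS (range z) ∪ ET t)) =
        (MK (⊥ : IntermediateField ℚ ℂ)).eRk (P ∪ (NS (range z) ∪ EV T)) := by
      apply le_antisymm
      · apply (MK _).eRk_mono
        exact union_subset_union_right _ (union_subset_union_right _
          (ET_subset_EV fun i => Submodule.subset_span ⟨i, rfl⟩))
      · apply rk_le_of_subset_cl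
        rintro x (hx | hx | hx)
        · exact subset_cl _ (Or.inl hx)
        · exact subset_cl _ (Or.inr (Or.inl hx))
        · exact (MK _).closure_subset_closure (subset_union_right.trans subset_union_right) (EV_subset_cl _ t hx)
    rw [h1]
    apply (MK _).eRk_mono
    have h2 : NS (range z₀) ∪ NS S ⊆ NS (range z) := by
      rw [← NS_union]
      exact NS_mono hrange
    rintro x ((hx | hx | hx) | hx | hx)
    · exact Or.inl hx
    · exact Or.inr (Or.inl (h2 (Or.inl hx)))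
    · exact Or.inr (Or.inr (ET_subset_EV (fun i => hT₀T (ht₀V i)) hx))
    · exact Or.inr (Or.inl (h2 (Or.inr hx)))
    · exact Or.inr (Or.inr (ET_subset_EV (fun i => hT₁T (ht₁V i)) hx))
  rw [rank_add hf0 hf1] at hrk
  have hle : clo ⊥ (P ∪ (NS (range z₀) ∪ ET t₀)) ≤ IFd K := by
    apply hK.clo_le bot_le
    rintro x (hx | hx | ⟨i, rfl⟩ | ⟨i, rfl⟩)
    · exact hPK hx
    · refine hK.NS_mem ?_ hx
      rintro _ ⟨i, rfl⟩
      exact hz₀K i
    · exact (ht₀V i).2
    · exact hK.exp _ (ht₀V i).2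
  have hr5 := rank_mono_base hle hf1
  -- the ranks as numbers
  have hnat : ∀ (F : IntermediateField ℚ ℂ) {S : Set ℂ}, S.Finite →
      ∃ r : ℕ, (MK F).eRk S = r := by
    intro F S hS
    have : (MK F).eRk S ≠ ⊤ := by
      rw [← lt_top_iff_ne_top]
      exact lt_of_le_of_lt ((MK _).eRk_le_encard _) hS.encard_lt_top
    exact ⟨_, (ENat.natCast_toNat this).symm⟩
  obtain ⟨r0, hr0⟩ := hnat ⊥ hf0
  obtain ⟨r1, hr1⟩ := hnat (IFd K) hf1
  obtain ⟨r2, hr2⟩ := hnat (clo ⊥ (P ∪ (NS (range z₀) ∪ ET t₀))) hf1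
  rw [hr1] at hch'
  rw [hr1, hr2] at hr5
  rw [hr0, hr2] at hrk
  have e1 : 3 * S.card + finrank ℚ T₁ + finrank ℂ (Δ.map (rsX S T₁)) ≤ r1 := by exact_mod_cast hch'
  have e3 : r1 ≤ r2 := by exact_mod_cast hr5
  have e4 : r0 + r2 + m ≤ 3 * n + s + c := by exact_mod_cast hrk
  refine ⟨⟨I.card, finrank ℚ T₀, z₀, t₀, by omega, by omega, by omega,
    fun i => h.im _, fun i => h.ncm _, fun i k hik => h.ineq _ _ (hz₀i i k hik),
    h.indE.sub ht₀ (fun i => hT₀T (ht₀V i)), ?_⟩, fun h0 => ?_⟩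
  · rw [hr0]
    exact_mod_cast (by omega : r0 + (m + d) ≤ 3 * I.card + finrank ℚ T₀ + c)
  · have key : ∀ j, w j ∈ K := by
      intro j
      by_contra hj
      obtain ⟨v, hvT, hv⟩ := good_Tan (hK.good _ (kd n s) w j hU hj)
      rw [Submodule.finrank_eq_zero.1 h0, Submodule.mem_bot] at hvT
      rw [hvT] at hv
      exact zero_ne_one hv
    constructor
    · intro j
      have := key (Fin.castAdd s j)
      rwa [hw, Fin.append_left] at this
    · intro j
      have := key (Fin.natAdd n j)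
      rwa [hw, Fin.append_right] at this

end Pool.Agent.H445.MX
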