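import Pool.Agent.H445.MX.Dim

/-!
# Arbitrary tuples of points of the upper half-plane and of exponents
-/

set_option autoImplicit false

open Set Filter Module
open scoped Topology ENNReal

noncomputable section

namespace Pool.Agent.H445.MX

open H667R3 Pool.Agent.W245.EB
open Pool.Agent.Y685 Pool.Agent.TH813.Ell Pool.Agent.Y776 Pool.Agent.Y776.Fam Pool.Agent.Y776.AxJ
open Pool.Agent.TH813.Rel (MK subset_cl rk_le_of_subset_cl)
open Pool.Agent.H445.MJ

variable {n s m c : ℕ} {K : Subfield ℂ} {P : Set ℂ} {B : Submodule ℚ ℂ}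

/-- the orbits of the special points -/
def oC (S : Set ℂ) : Set (Set ℂ) := orb '' {z | z ∈ S ∧ CMp z}

/-- the number `3 a + b` -/
def cntC (S : Set ℂ) : ℕ := 3 * (oN S).ncard + (oC S).ncard

/-- finite sets of points and tuples of exponents with defect at least `m` -/
structure BadX (P : Set ℂ) (B : Submodule ℚ ℂ) (c m : ℕ) (S : Set ℂ) (t : Fin s → ℂ) : Prop where
  fin : S.Finite
  im : ∀ z ∈ S, 0 < z.im
  rk : (MK (⊥ : IntermediateField ℚ ℂ)).eRk (P ∪ (MJ.NS S ∪ ET t)) + m ≤ ((cntC S + dimQ B t + c : ℕ) : ℕ∞)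

theorem oC_cmS (S : Set ℂ) : oC (cmS S) = oC S := by
  unfold oC cmS
  congr 1
  ext z
  exact ⟨fun h => ⟨h.1.1, h.2⟩, fun h => ⟨h, h.2⟩⟩

/-- assembling a failure -/
theorem BadX.of_FailX {a q : ℕ} {S₀ : Set ℂ} (hfin : S₀.Finite) (hS : ∀ z ∈ S₀, 0 < z.im ∧ CMp z) {w : Fin a → ℂ}
    {t : Fin q → ℂ} (h : FailX (P ∪ MJ.NS S₀) B ((oC S₀).ncard + c) a q m w t) :
    BadX P B c m (range w ∪ S₀) t := by
  have h1 : oN (range w ∪ S₀) = oN (range w) := by
    unfold oN
    congr 1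
    ext z
    refine ⟨fun h1 => ⟨h1.1.resolve_right fun h2 => h1.2 (hS z h2).2, h1.2⟩, fun h1 => ⟨Or.inl h1.1, h1.2⟩⟩
  have h2 : oC (range w ∪ S₀) = oC S₀ := by
    unfold oC
    congr 1
    ext z
    refine ⟨fun h1 => ⟨h1.1.resolve_left ?_, h1.2⟩, fun h1 => ⟨Or.inr h1.1, h1.2⟩⟩
    rintro ⟨i, rfl⟩
    exact h.ncm i h1.2
  refine ⟨(finite_range w).union hfin, ?_, ?_⟩
  · rintro z (⟨i, rfl⟩ | hz)
    · exact h.im i
    · exact (hS z hz).1
  · have e : P ∪ (MJ.NS (range w ∪ S₀) ∪ ET t) = (P ∪ MJ.NS S₀) ∪ (MJ.NS (range w) ∪ ET t) := by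
      rw [NS_union]
      ext v
      simp only [mem_union]
      tauto
    rw [e, cntC, h1, h2, ncard_oN_range h.im h.ncm h.ineq, dimQ_of_li (IndE_iff.1 h.indE)]
    refine h.rk.trans ?_
    exact_mod_cast (by omega : 3 * a + q + ((oC S₀).ncard + c) ≤ 3 * a + (oC S₀).ncard + q + c)

/-- representatives of the classes -/
theorem BadX.choose {S : Set ℂ} {t : Fin s → ℂ} (h : BadX P B c m S t) : ∃ (a : ℕ) (w : Fin a → ℂ)
    (σ : Fin (dimQ B t) → Fin s), (∀ k, w k ∈ S) ∧
    (∀ z ∈ S, ¬ CMp z → ∃ k, GL2Q (w k) z) ∧ a + (cmS S).ncard ≤ S.ncard ∧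
    (∀ i, ∃ (e : Fin (dimQ B t) → ℚ) (b : B), t i = ∑ j, e j • t (σ j) + b) ∧
    FailX (P ∪ MJ.NS (cmS S)) B ((oC (cmS S)).ncard + c) a (dimQ B t) m w (fun i => t (σ i)) := by
  have hfin : {z | z ∈ S ∧ ¬ CMp z}.Finite := h.fin.subset fun z hz => hz.1
  have hoN : (oN S).Finite := hfin.image _
  have hcard : Nat.card (oN S) = (oN S).ncard := rfl
  have := hoN.to_subtype
  let e : oN S ≃ Fin (oN S).ncard := Finite.equivFinOfCardEq hcard
  have hch : ∀ k, ∃ z, (z ∈ S ∧ ¬ CMp z) ∧ orb z = ((e.symm k : oN S) : Set ℂ) := fun k => (e.symm k).2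
  choose w hw1 hw2 using hch
  have him : ∀ k, 0 < (w k).im := fun k => h.im _ (hw1 k).1
  have hin : ∀ i k, i ≠ k → ¬ GL2Q (w i) (w k) := by
    intro i k hik hG
    have h1 := (orb_eq_iff (him k)).2 hG
    rw [hw2, hw2] at h1
    exact hik (e.symm.injective (Subtype.ext h1))
  have hinj : Function.Injective w := by
    intro i k hik
    by_contra hne
    exact hin i k hne (by rw [hik]; exact GL2Q.refl _)
  obtain ⟨σ, hσ1, hσ2⟩ := exists_sub B t
  refine ⟨(oN S).ncard, w, σ, fun k => (hw1 k).1, ?_, ?_, hσ2, ?_⟩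
  · intro z hz hcm
    have h1 : orb z ∈ oN S := ⟨z, ⟨hz, hcm⟩, rfl⟩
    refine ⟨e ⟨orb z, h1⟩, ?_⟩
    rw [← orb_eq_iff (h.im z hz), hw2, Equiv.symm_apply_apply]
  · have h1 : (range w).ncard = (oN S).ncard := by
      rw [← image_univ, ncard_image_of_injective _ hinj, ncard_univ, Nat.card_eq_fintype_card,
        Fintype.card_fin]
    have h2 : Disjoint (range w) (cmS S) := by
      rw [Set.disjoint_left]
      rintro _ ⟨k, rfl⟩ h3
      exact (hw1 k).2 h3.2
    have h3 : range w ∪ cmS S ⊆ S := by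
      rintro z (⟨k, rfl⟩ | hz)
      · exact (hw1 k).1
      · exact hz.1
    rw [← h1, ← ncard_union_eq h2 (finite_range w) (h.fin.subset fun z hz => hz.1)]
    exact ncard_le_ncard h3 h.fin
  · refine ⟨him, fun k => (hw1 k).2, hin, IndE_iff.2 hσ1, ?_⟩
    have h1 : (MK (⊥ : IntermediateField ℚ ℂ)).eRk ((P ∪ MJ.NS (cmS S)) ∪ (MJ.NS (range w) ∪ ET fun i => t (σ i))) ≤
        (MK (⊥ : IntermediateField ℚ ℂ)).eRk (P ∪ (MJ.NS S ∪ ET t)) := by
      apply Matroid.eRk_mono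
      have h2 : MJ.NS (cmS S) ∪ MJ.NS (range w) ⊆ MJ.NS S := by
        rw [← NS_union]
        apply NS_mono
        rintro z (hz | ⟨k, rfl⟩)
        · exact hz.1
        · exact (hw1 k).1
      rintro x ((hx | hx) | hx | hx)
      · exact Or.inl hx
      · exact Or.inr (Or.inl (h2 (Or.inl hx)))
      · exact Or.inr (Or.inl (h2 (Or.inr hx)))
      · exact Or.inr (Or.inr (ET_comp_subset t σ hx))
    rw [oC_cmS]
    refine ((add_le_add h1 le_rfl).trans h.rk).trans ?_
    rw [cntC]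
    exact_mod_cast (by omega : 3 * (oN S).ncard + (oC S).ncard + dimQ B t + c ≤
      3 * (oN S).ncard + dimQ B t + ((oC S).ncard + c))

/-- the failures -/
def VX (P : Set ℂ) (B : Submodule ℚ ℂ) (c n s m : ℕ) : Set (Fin (n + s) → ℂ) :=
  {w | BadX P B c m (range fun i => w (Fin.castAdd s i)) (fun i => w (Fin.natAdd n i))}

theorem append_mem_VX {z : Fin n → ℂ} {t : Fin s → ℂ} : Fin.append z t ∈ VX P B c n s m ↔
    BadX P B c m (range z) t := by
  unfold VX
  rw [mem_ofPred_eq]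
  simp only [Fin.append_left, Fin.append_right]

theorem VX_nonempty : (VX P B c n s m).Nonempty ↔
    ∃ (z : Fin n → ℂ) (t : Fin s → ℂ), BadX P B c m (range z) t := by
  constructor
  · rintro ⟨w, hw⟩
    exact ⟨_, _, hw⟩
  · rintro ⟨z, t, h⟩
    exact ⟨_, append_mem_VX.2 h⟩

/-- the admissible levels -/
def LevV (P : Set ℂ) (B : Submodule ℚ ℂ) (c n s m : ℕ) : Set ℕ :=
  {d | ∃ b a : ℕ, b ≤ n ∧ a ≤ s ∧ b + a = d ∧ (VX P B c (n - b) (s - a) (m + d)).Nonempty}

theorem LevV_bdd : BddAbove (LevV P B c n s m) := by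
  refine ⟨n + s, ?_⟩
  rintro d ⟨b, a, h1, h2, rfl, -⟩
  exact add_le_add h1 h2

theorem ncard_range_le (z : Fin n → ℂ) : (range z).ncard ≤ n := by
  rw [← image_univ]
  refine (ncard_image_le finite_univ).trans ?_
  rw [ncard_univ, Nat.card_eq_fintype_card, Fintype.card_fin]

/-- the levels of the pieces are levels -/
theorem LevX_sub (hB : BaseX P B) {S₀ : Set ℂ} (hfin : S₀.Finite) (hS : ∀ z ∈ S₀, 0 < z.im ∧ CMp z) {a q : ℕ}
    (ha : a + S₀.ncard ≤ n) (hq : q ≤ s) :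
    LevX (P ∪ MJ.NS S₀) B ((oC S₀).ncard + c) a q m ⊆ LevV P B c n s m := by
  have := hB.finB
  rintro d ⟨b, a', h1, h2, h3, hne⟩
  obtain ⟨w, t, hw⟩ := FX_nonempty.1 hne
  obtain ⟨w', t', hw'⟩ := FailX.extend (n := n - b - S₀.ncard) (s := s - a') (by omega) (by omega) ⟨w, t, hw⟩
  have h4 := BadX.of_FailX hfin hS hw'
  have h5 : (range w' ∪ S₀).ncard = n - b := by
    have e1 : (range w').ncard = n - b - S₀.ncard := by
      rw [← image_univ, ncard_image_of_injective _ hw'.inj, ncard_univ, Nat.card_eq_fintype_card,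
        Fintype.card_fin]
    have e2 : Disjoint (range w') S₀ := by
      rw [Set.disjoint_left]
      rintro _ ⟨k, rfl⟩ h3
      exact hw'.ncm k (hS _ h3).2
    rw [ncard_union_eq e2 (finite_range w') hfin, e1]
    omega
  obtain ⟨z, hz⟩ := exists_range (n := n - b) h4.fin h5.le (fun h0 => by rw [← h5, h0, ncard_empty])
  refine ⟨b, a', by omega, by omega, h3, VX_nonempty.2 ⟨z, t', ?_⟩⟩
  rw [hz]
  exact h4

theorem le_dimQ {k : Type} [Field k] [Module k ℂ] {A : Submodule k ℂ} {p n : ℕ} {u : Fin p → ℂ} {v : Fin n → ℂ}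
    (hu : LinearIndependent k (fun i => A.mkQ (u i))) (h : ∀ i, ∃ l, u i = v l) : p ≤ dimQ A v := by
  have h1 : Submodule.span k (range fun i => A.mkQ (u i)) ≤ Submodule.span k (range fun i => A.mkQ (v i)) := by
    rw [Submodule.span_le]
    rintro _ ⟨i, rfl⟩
    obtain ⟨l, hl⟩ := h i
    apply Submodule.subset_span
    exact ⟨l, by simp only [hl]⟩
  have h2 : FiniteDimensional k (Submodule.span k (range fun i => A.mkQ (v i))) :=
    FiniteDimensional.span_of_finite k (finite_range _)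
  have h3 := Submodule.finrank_mono h1
  rw [finrank_span_eq_card hu, Fintype.card_fin] at h3
  exact h3

/-- adding generic exponents to independent exponents -/
theorem IndE.append {t : Fin s → ℂ} (h : IndE B t) (hBK : ∀ x ∈ B, x ∈ K) (ht : ∀ i, t i ∈ K) {a : ℕ} {y : Fin a → ℂ}
    (hy : ∀ c : Fin a → ℂ, (∀ j, c j ∈ K) → ∑ j, c j * y j ∈ K → c = 0) : IndE B (Fin.append t y) := by
  have hqK : ∀ q : ℚ, (q : ℂ) ∈ K := fun q => SubfieldClass.ratCast_mem K q
  intro e h0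
  rw [Fin.sum_univ_add] at h0
  simp only [Fin.append_left, Fin.append_right] at h0
  have h1 := hy (fun j : Fin a => (e (Fin.natAdd s j) : ℂ)) (fun j => hqK _) (by
    have h2 := K.sub_mem (hBK _ h0) (K.sum_mem fun i (_ : i ∈ Finset.univ) =>
      show e (Fin.castAdd a i) • t i ∈ K by
        rw [Rat.smul_def]
        exact K.mul_mem (hqK _) (ht i))
    rw [add_sub_cancel_left] at h2
    simp only [Rat.smul_def] at h2
    exact h2)
  have h2 : ∀ j : Fin a, e (Fin.natAdd s j) = 0 := by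
    intro j
    have := congrFun h1 j
    rw [Pi.zero_apply] at this
    exact_mod_cast this
  simp only [h2, zero_smul, Finset.sum_const_zero, add_zero] at h0
  have h3 := h (fun i => e (Fin.castAdd a i)) h0
  funext i
  refine Fin.addCases (fun i => ?_) (fun j => ?_) i
  · exact congrFun h3 i
  · exact h2 j

/-- adding generic points and exponents -/
theorem BadX.generic {S : Set ℂ} {t : Fin s → ℂ} {b a : ℕ} (h : BadX P B c (m + (b + a)) S t) (hK : FldX K)
    (hBK : ∀ x ∈ B, x ∈ K) (hS : S ⊆ K) (ht : ∀ i, t i ∈ K) {w : Fin (b + a) → ℂ} (hw : w ∈ GenX K b a) :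
    BadX P B c m (S ∪ range fun i => w (Fin.castAdd a i)) (Fin.append t fun i => w (Fin.natAdd b i)) := by
  obtain ⟨⟨hxU, hxK, hxG⟩, hwE⟩ := hw
  set x : Fin b → ℂ := fun i => w (Fin.castAdd a i) with hx
  set y : Fin a → ℂ := fun i => w (Fin.natAdd b i) with hy
  have hxcm : ∀ i, ¬ CMp (x i) := fun i hcm => hxK i (hK.alg_mem hcm.alg)
  have h1 : oN (S ∪ range x) = oN S ∪ oN (range x) := by
    unfold oN
    rw [← image_union]
    congr 1
    ext z
    constructor
    · rintro ⟨h1 | h1, h2⟩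
      · exact Or.inl ⟨h1, h2⟩
      · exact Or.inr ⟨h1, h2⟩
    · rintro (⟨h1, h2⟩ | ⟨h1, h2⟩)
      · exact ⟨Or.inl h1, h2⟩
      · exact ⟨Or.inr h1, h2⟩
  have h2 : oC (S ∪ range x) = oC S := by
    unfold oC
    congr 1
    ext z
    refine ⟨fun h1 => ⟨h1.1.resolve_right ?_, h1.2⟩, fun h1 => ⟨Or.inl h1.1, h1.2⟩⟩
    rintro ⟨i, rfl⟩
    exact hxcm i h1.2
  have h3 : Disjoint (oN S) (oN (range x)) := by
    rw [Set.disjoint_left]
    rintro _ ⟨z, ⟨hz, -⟩, rfl⟩ ⟨_, ⟨⟨i, rfl⟩, -⟩, h4⟩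
    have h5 : GL2Q (x i) z := (orb_eq_iff (h.im z hz)).1 h4
    exact hxK i (h5.mem_left (h.im z hz) (hS hz))
  have hfin1 : (oN S).Finite := (h.fin.subset fun z hz => hz.1).image _
  have hfin2 : (oN (range x)).Finite := ((finite_range x).subset fun z hz => hz.1).image _
  have h4 : cntC (S ∪ range x) = cntC S + 3 * b := by
    rw [cntC, cntC, h1, h2, ncard_union_eq h3 hfin1 hfin2, ncard_oN_range hxU hxcm hxG]
    ring
  have h5 : dimQ B t + a ≤ dimQ B (Fin.append t y) := by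
    obtain ⟨σ, hσ1, -⟩ := exists_sub B t
    have h6 := IndE.append (IndE_iff.2 hσ1) hBK (fun i => ht (σ i)) hwE
    refine le_dimQ (IndE_iff.1 h6) fun i => ?_
    refine Fin.addCases (fun i => ?_) (fun i => ?_) i
    · exact ⟨Fin.castAdd a (σ i), by rw [Fin.append_left, Fin.append_left]⟩
    · exact ⟨Fin.natAdd s i, by rw [Fin.append_right, Fin.append_right]⟩
  refine ⟨h.fin.union (finite_range x), ?_, ?_⟩
  · rintro z (hz | ⟨i, rfl⟩)
    · exact h.im z hz
    · exact hxU i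
  · have e : P ∪ (MJ.NS (S ∪ range x) ∪ ET (Fin.append t y)) =
        (P ∪ (MJ.NS S ∪ ET t)) ∪ (MJ.NS (range x) ∪ ET y) := by
      rw [NS_union, ET_append]
      ext v
      simp only [mem_union]
      tauto
    rw [e, h4]
    have h6 := (MK (⊥ : IntermediateField ℚ ℂ)).eRk_union_le_eRk_add_encard (P ∪ (MJ.NS S ∪ ET t))
      (MJ.NS (range x) ∪ ET y)
    have h7 : (MJ.NS (range x) ∪ ET y).encard ≤ ((4 * b + 2 * a : ℕ) : ℕ∞) := by
      refine (encard_union_le _ _).trans ?_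
      rw [Nat.cast_add]
      exact add_le_add (encard_NS x) (encard_ET y)
    have h8 := h.rk
    calc (MK (⊥ : IntermediateField ℚ ℂ)).eRk ((P ∪ (MJ.NS S ∪ ET t)) ∪ (MJ.NS (range x) ∪ ET y)) + m
        ≤ ((MK (⊥ : IntermediateField ℚ ℂ)).eRk (P ∪ (MJ.NS S ∪ ET t)) + ((4 * b + 2 * a : ℕ) : ℕ∞)) + m := by
          gcongr
          exact h6.trans (add_le_add le_rfl h7)
      _ = ((MK (⊥ : IntermediateField ℚ ℂ)).eRk (P ∪ (MJ.NS S ∪ ET t)) + (m + (b + a) : ℕ)) +
            (3 * b + a : ℕ) := by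
          have e1 : ((4 * b + 2 * a : ℕ) : ℕ∞) + m = ((m + (b + a) : ℕ) : ℕ∞) + ((3 * b + a : ℕ) : ℕ∞) := by
            rw [← Nat.cast_add, ← Nat.cast_add]
            congr 1
            omega
          rw [add_assoc, e1, ← add_assoc]
      _ ≤ ((cntC S + dimQ B t + c : ℕ) : ℕ∞) + (3 * b + a : ℕ) := by gcongr
      _ ≤ ((cntC S + 3 * b + dimQ B (Fin.append t y) + c : ℕ) : ℕ∞) := by
          rw [← Nat.cast_add]
          exact_mod_cast (by omega : cntC S + dimQ B t + c + (3 * b + a) ≤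
            cntC S + 3 * b + dimQ B (Fin.append t y) + c)

theorem lowerV (hB : BaseX P B) {d : ℕ} (hd : d ∈ LevV P B c n s m) :
    ((2 * d : ℕ) : ℝ≥0∞) ≤ dimH (VX P B c n s m) := by
  obtain ⟨b, a, h1, h2, rfl, h3⟩ := hd
  obtain ⟨n', rfl⟩ : ∃ n', n = n' + b := ⟨n - b, by omega⟩
  obtain ⟨s', rfl⟩ : ∃ s', s = s' + a := ⟨s - a, by omega⟩
  rw [Nat.add_sub_cancel, Nat.add_sub_cancel] at h3
  obtain ⟨z, t, h4⟩ := VX_nonempty.1 h3
  obtain ⟨K, hK, -, hS, hBK⟩ := hB.exists_field (S := range z ∪ range t)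
    ((countable_range z).union (countable_range t))
  have h5 : ∀ w ∈ GenX K b a, BadX P B c m (range (Fin.append z fun i => w (Fin.castAdd a i)))
      (Fin.append t fun i => w (Fin.natAdd b i)) := fun w hw => by
    rw [range_append]
    exact BadX.generic h4 hK hBK (fun x hx => hS (Or.inl hx)) (fun i => hS (Or.inr ⟨i, rfl⟩)) hw
  let σ : Fin (b + a) → Fin ((n' + b) + (s' + a)) := Fin.addCases
    (fun i => Fin.castAdd _ (Fin.natAdd n' i)) (fun i => Fin.natAdd _ (Fin.natAdd s' i))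
  let π : (Fin ((n' + b) + (s' + a)) → ℂ) →L[ℂ] (Fin (b + a) → ℂ) :=
    ContinuousLinearMap.pi fun j => ContinuousLinearMap.proj (σ j)
  refine (dimH_GenX hK.cnt b a).trans (le_trans (dimH_mono ?_)
    (π.lipschitz.dimH_image_le (VX P B c (n' + b) (s' + a) m)))
  intro w hw
  refine ⟨Fin.append (Fin.append z fun i => w (Fin.castAdd a i))
    (Fin.append t fun i => w (Fin.natAdd b i)), append_mem_VX.2 (h5 w hw), ?_⟩
  funext j
  change Fin.append (Fin.append z fun i => w (Fin.castAdd a i))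
    (Fin.append t fun i => w (Fin.natAdd b i)) (σ j) = w j
  refine Fin.addCases (fun i => ?_) (fun i => ?_) j
  · simp only [σ, Fin.addCases_left, Fin.append_left, Fin.append_right]
  · simp only [σ, Fin.addCases_right, Fin.append_right]

/-- the codes of the pieces -/
abbrev CodeX (B : Submodule ℚ ℂ) (n s : ℕ) : Type := Code n × (Σ q : ℕ, Fin s → (Fin q → ℚ) × B)

/-- the reconstruction of the tuple -/
def recX (C : CodeX B n s) (w : Fin (C.1.1 + C.2.1) → ℂ) : Fin (n + s) → ℂ :=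
  Fin.append (rec1 C.1 fun i => w (Fin.castAdd C.2.1 i))
    (fun i => ∑ j, (((C.2.2 i).1 j : ℚ) : ℂ) * w (Fin.natAdd C.1.1 j) + ((C.2.2 i).2 : ℂ))

theorem recX_contDiff (C : CodeX B n s) : ContDiffOn ℝ 1 (recX C) (UX (kd C.1.1 C.2.1)) := by
  apply contDiffOn_pi.2
  intro i
  unfold recX
  refine Fin.addCases (fun i => ?_) (fun i => ?_) i
  · simp only [Fin.append_left]
    have h1 := (contDiffOn_pi.1 (rec1_contDiff C.1)) i
    have h2 : ContDiff ℝ 1 (fun w : Fin (C.1.1 + C.2.1) → ℂ => fun i => w (Fin.castAdd C.2.1 i)) := by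
      fun_prop
    refine h1.comp h2.contDiffOn ?_
    intro w hw i
    exact hw _ (kd_left _ _ i)
  · simp only [Fin.append_right]
    fun_prop

theorem convex_UX {N : ℕ} (κ : Fin N → Bool) : Convex ℝ (UX κ) := by
  intro x hx y hy s t hs ht hst i hi
  have h1 : ((s • x + t • y) i).im = s * (x i).im + t * (y i).im := by
    simp
  rw [h1]
  rcases hs.lt_or_eq with h | h
  · exact add_pos_of_pos_of_nonneg (mul_pos h (hx i hi)) (mul_nonneg ht (hy i hi).le)
  · have : t = 1 := by rw [← hst, ← h, zero_add]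
    rw [← h, this]
    simpa using hy i hi

/-- the piece of a code -/
def pcX (P : Set ℂ) (B : Submodule ℚ ℂ) (c m : ℕ) (C : CodeX B n s) : Set (Fin (C.1.1 + C.2.1) → ℂ) :=
  FX (P ∪ MJ.NS (spC C.1)) B ((oC (spC C.1)).ncard + c) C.1.1 C.2.1 m

/-- the good codes -/
def GoodC (P : Set ℂ) (B : Submodule ℚ ℂ) (c m : ℕ) (C : CodeX B n s) : Prop :=
  LevX (P ∪ MJ.NS (spC C.1)) B ((oC (spC C.1)).ncard + c) C.1.1 C.2.1 m ⊆ LevV P B c n s m

theorem countable_CodeX (hB : BaseX P B) : Countable (CodeX B n s) := by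
  have h1 : Countable B := hB.cntB.to_subtype
  have h2 : Countable (Code n) := countable_Code
  infer_instance

theorem coverX (hB : BaseX P B) {v : Fin (n + s) → ℂ} (hv : v ∈ VX P B c n s m) : ∃ C : CodeX B n s,
    GoodC P B c m C ∧ v ∈ recX C '' pcX P B c m C := by
  classical
  set z : Fin n → ℂ := fun i => v (Fin.castAdd s i) with hz'
  set t : Fin s → ℂ := fun i => v (Fin.natAdd n i) with ht'
  have hz : BadX P B c m (range z) t := hv
  obtain ⟨a, w, σ, h1, h2, h3, hσ, h4⟩ := hz.choose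
  have h5 : ∀ i, ∃ c : (Fin a × Mat) ⊕ {s : ℂ // CMp s}, (match c with
      | Sum.inl (k, q) => ((q.1 0 : ℂ) * w k + q.1 1) / ((q.1 2 : ℂ) * w k + q.1 3)
      | Sum.inr s => (s : ℂ)) = z i ∧ (∀ s, c = Sum.inr s → (s : ℂ) = z i) ∧
      ((∃ s, c = Sum.inr s) ↔ CMp (z i)) := by
    intro i
    by_cases hcm : CMp (z i)
    · refine ⟨Sum.inr ⟨z i, hcm⟩, rfl, ?_, ⟨fun _ => hcm, fun _ => ⟨_, rfl⟩⟩⟩
      intro s hs
      rw [← Sum.inr_injective hs]
    · obtain ⟨k, p, q, r, t, h6, h7⟩ := h2 (z i) ⟨i, rfl⟩ hcm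
      have hne : (r : ℂ) * w k + t ≠ 0 := den_ne (h4.im k) (by
        rintro ⟨h8, h9⟩
        rw [h8, h9] at h6
        simp at h6)
      refine ⟨Sum.inl (k, ⟨![p, q, r, t], h6⟩), ?_, ?_, ?_⟩
      · change ((p : ℂ) * w k + q) / ((r : ℂ) * w k + t) = z i
        rw [div_eq_iff hne, h7]
      · intro s hs
        cases hs
      · refine ⟨?_, fun h => absurd h hcm⟩
        rintro ⟨s, hs⟩
        cases hs
  choose c' hc1 hc2 hc3 using h5
  choose e b hσ using hσ
  have hsp : spC (⟨a, c'⟩ : Code n) = cmS (range z) := by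
    ext s
    constructor
    · rintro ⟨i, s', h6, rfl⟩
      have h7 := hc2 i s' h6
      exact ⟨⟨i, h7.symm⟩, s'.2⟩
    · rintro ⟨⟨i, rfl⟩, h6⟩
      obtain ⟨s', hs'⟩ := (hc3 i).2 h6
      exact ⟨i, s', hs', (hc2 i s' hs').symm⟩
  refine ⟨(⟨a, c'⟩, ⟨dimQ B t, fun i => (e i, b i)⟩), ?_, Fin.append w (fun i => t (σ i)), ?_, ?_⟩
  · unfold GoodC
    simp only [hsp]
    refine LevX_sub hB (hz.fin.subset fun x hx => hx.1) (fun x hx => ⟨hz.im x hx.1, hx.2⟩) ?_ (dimQ_le B t)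
    exact h3.trans (ncard_range_le z)
  · unfold pcX
    simp only [hsp]
    exact append_mem_FX.2 h4
  · funext i
    unfold recX
    refine Fin.addCases (fun i => ?_) (fun i => ?_) i
    · simp only [Fin.append_left]
      have h6 := hc1 i
      unfold rec1
      rcases hci : c' i with ⟨k, q⟩ | s
      · rw [hci] at h6
        simp only [hci]
        exact h6
      · rw [hci] at h6
        simp only [hci]
        exact h6
    · simp only [Fin.append_right]
      rw [show v (Fin.natAdd n i) = t i from rfl, hσ i]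
      congr 1

/-- **The dimension formula for arbitrary tuples** -/
theorem dimVX (hB : BaseX P B) : dimH (VX P B c n s m) = (2 * sSup (LevV P B c n s m) : ℕ) := by
  apply le_antisymm
  · let ι := {C : CodeX B n s // GoodC P B c m C}
    have hc : Countable (CodeX B n s) := countable_CodeX hB
    have h1 : VX P B c n s m ⊆ ⋃ C : ι, recX C.1 '' pcX P B c m C.1 := by
      intro z hz
      obtain ⟨C, hC, h⟩ := coverX hB hz
      exact mem_iUnion.2 ⟨⟨C, hC⟩, h⟩
    refine (dimH_mono h1).trans ?_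
    rw [dimH_iUnion]
    refine iSup_le fun C => ?_
    have h2 : pcX P B c m C.1 ⊆ UX (kd C.1.1.1 C.1.2.1) := fun w hw => by
      rw [← append_eta w]
      exact append_mem_UX (mem_FX.1 hw).im
    refine ((recX_contDiff C.1).dimH_image_le (convex_UX _) h2).trans ?_
    have hB' : BaseX (P ∪ MJ.NS (spC C.1.1)) B := ⟨hB.fin.union (NS_finite (spC_finite _)), hB.finB⟩
    rw [pcX, dimX hB']
    have h3 : sSup (LevX (P ∪ MJ.NS (spC C.1.1)) B ((oC (spC C.1.1)).ncard + c) C.1.1.1 C.1.2.1 m) ≤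
        sSup (LevV P B c n s m) := by
      rcases Set.eq_empty_or_nonempty
        (LevX (P ∪ MJ.NS (spC C.1.1)) B ((oC (spC C.1.1)).ncard + c) C.1.1.1 C.1.2.1 m) with h | h
      · rw [h, csSup_empty]
        exact Nat.zero_le _
      · exact le_csSup LevV_bdd (C.2 (Nat.sSup_mem h LevX_bdd))
    exact_mod_cast Nat.mul_le_mul_left 2 h3
  · rcases Set.eq_empty_or_nonempty (LevV P B c n s m) with h | h
    · rw [h, csSup_empty]
      simp
    · exact lowerV hB (Nat.sSup_mem h LevV_bdd)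

/-- **Countability** -/
theorem countableVX (hB : BaseX P B) : (VX P B c n s m).Countable ↔ 1 ∉ LevV P B c n s m := by
  constructor
  · intro h h1
    have h2 := lowerV hB h1
    rw [h.dimH_zero] at h2
    norm_num at h2
  · intro h
    let ι := {C : CodeX B n s // GoodC P B c m C}
    have hc : Countable (CodeX B n s) := countable_CodeX hB
    have h1 : VX P B c n s m ⊆ ⋃ C : ι, recX C.1 '' pcX P B c m C.1 := by
      intro z hz
      obtain ⟨C, hC, h⟩ := coverX hB hz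
      exact mem_iUnion.2 ⟨⟨C, hC⟩, h⟩
    refine (countable_iUnion fun C => ?_).mono h1
    refine Set.Countable.image ?_ _
    have hB' : BaseX (P ∪ MJ.NS (spC C.1.1)) B := ⟨hB.fin.union (NS_finite (spC_finite _)), hB.finB⟩
    rw [pcX, countableX hB']
    exact fun h2 => h (C.2 h2)

end Pool.Agent.H445.MX
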